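import Pool.Agent.Y771.KF.App
import Pool.Agent.TH21.MS.LadMain
import Pool.Agent.TH21.MS.NomeMain

/-!
# Values of `j`, `j'`, `j''` at points of a number field
-/

set_option autoImplicit false

open Filter Topology Height Height.AdmissibleAbsValues MvPolynomial Pool.Agent.Y124 Pool.Agent.TH21.MS

namespace Pool.Agent.Y771.KF

/-- subfamilies of independent families are independent -/
theorem AIndep.sub {κ κ' : Type} (u : κ → ℝ → ℝ) (a b : ℝ) (h : AIndep u a b) (ι : κ' → κ)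
    (hι : Function.Injective ι) : AIndep (fun y => u (ι y)) a b := by
  intro P hP
  have h1 := h (rename (Option.map ι) P) (by
    intro t ht
    rw [eval_rename]
    refine Eq.trans ?_ (hP t ht)
    congr 2
    funext o
    cases o <;> rfl)
  exact rename_injective _ (Option.map_injective hι) (by rw [h1, map_zero])

theorem preconn_H : IsPreconnected {z : ℂ | 0 < z.im} := (convex_halfSpace_im_gt 0).isPreconnected

theorem jet4_an (i : Fin 4) (z : ℂ) (hz : 0 < z.im) : AnalyticAt ℂ (fun z => jet4 z i) z := by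
  have hj := jj_an z hz
  fin_cases i
  · show AnalyticAt ℂ (fun z : ℂ => Complex.exp (-(2 * (Real.pi : ℂ) * Complex.I * z))) z
    exact ((analyticAt_const.mul analyticAt_id).neg).cexp
  · exact hj
  · exact hj.deriv
  · exact hj.deriv.deriv

/-- the functions at the points `s_k z` -/
noncomputable def fP {p : ℕ} (s : Fin p → ℝ) (q : Fin p × Fin 4) (z : ℂ) : ℂ := jet4 ((s q.1 : ℂ) * z) q.2

theorem fP_an {p : ℕ} (s : Fin p → ℝ) (hs : ∀ i, 0 < s i) (q : Fin p × Fin 4) :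
    AnalyticOnNhd ℂ (fP s q) {z : ℂ | 0 < z.im} := by
  intro z hz
  have h1 : 0 < ((s q.1 : ℂ) * z).im := by
    have : ((s q.1 : ℂ) * z).im = s q.1 * z.im := by simp [Complex.mul_im]
    rw [this]
    exact mul_pos (hs _) hz
  have h2 := jet4_an q.2 _ h1
  exact AnalyticAt.fun_comp (g := fun z => jet4 z q.2) (f := fun z : ℂ => (s q.1 : ℂ) * z) h2
    (analyticAt_const.mul analyticAt_id)

theorem fP_ind {p : ℕ} (s : Fin p → ℝ) (hs0 : ∀ i, 0 < s i)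
    (hs : ∀ c : Fin p → ℤ, ∑ k, (c k : ℝ) * s k = 0 → c = 0) : AIndepS (fP s) {z : ℂ | 0 < z.im} := by
  classical
  have hmono : StrictMono (fun _ : Fin 1 => (1 : ℝ)) := by
    intro i j hij
    exact absurd hij (by omega)
  have hσ : ∀ (c0 : ℤ) (c : Fin 0 → ℤ), (c0 : ℝ) + ∑ k, (c k : ℝ) * (fun _ : Fin 0 => (0 : ℝ)) k = 0 → c0 = 0 ∧ c = 0 := by
    intro c0 c h
    refine ⟨by simpa using h, Subsingleton.elim _ _⟩
  obtain ⟨h, hLB⟩ := LB_uL (fun _ : Fin 0 => (0 : ℝ)) (fun _ : Fin 1 => (1 : ℝ)) (fun _ => s) (fun _ => one_pos) hmono hσ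
    (fun _ => hs0) (fun _ => hs)
  have hA : AIndep (uL (fun _ : Fin 0 => (0 : ℝ)) (fun _ : Fin 1 => (1 : ℝ)) (fun _ => s)) 1 2 :=
    aindep_of_rindep _ _ _ fun d => rindep_of_LB _ h 1 (uL_an _ _ _ 1 one_pos fun _ => hs0) hLB d 1 2 le_rfl
      (by norm_num)
  have hA' := AIndep.sub _ _ _ hA (fun q : Fin p × Fin 4 => (Sum.inr ((0 : Fin 1), q) :
    Option (Fin 0) ⊕ (Fin 1 × (Fin p × Fin 4)))) (fun q q' h => by
      have h1 := Sum.inr.inj h
      exact (Prod.mk.inj h1).2)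
  refine aindepS_of_real _ 1 2 hA' (fP s) _ Complex.I Complex.I_ne_zero (fun q => Complex.I ^ s4 q.2)
    (fun q => pow_ne_zero _ Complex.I_ne_zero) ?_ ?_
  · intro t ht
    have : (0 : ℝ) < t := by linarith [ht.1]
    simpa using this
  · intro q t ht
    have ht0 : (0 : ℝ) < t := by linarith [ht.1]
    have h1 : (s q.1 : ℂ) * (Complex.I * (t : ℂ)) = Complex.I * ((s q.1 * t : ℝ) : ℂ) := by
      push_cast
      ring
    show jet4 ((s q.1 : ℂ) * (Complex.I * (t : ℂ))) q.2 = _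
    rw [h1, jet4_I _ (mul_pos (hs0 _) ht0)]
    simp only [uL, Sum.elim_inr, Real.rpow_one]

variable {k : Type} [Field k] [NumberField k]

/-- the `4 p n + 1` numbers -/
noncomputable def numP {p n : ℕ} (σ : k →+* ℂ) (s : Fin p → ℝ) (z : Fin n → k)
    (i : Option (Fin n × (Fin p × Fin 4))) : ℂ :=
  i.elim (Real.pi : ℂ) fun q => jet4 ((s q.2.1 : ℂ) * σ (z q.1)) q.2.2

/-- the exceptional tuples -/
def ExcP {p : ℕ} (σ : k →+* ℂ) (n d : ℕ) (s : Fin p → ℝ) (K : Set ℂ) (A B T : ℝ) : Set (Fin n → k) :=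
  {z | (∀ l, σ (z l) ∈ K ∧ mulHeight₁ (z l) ≤ T) ∧
    ∃ P : MvPolynomial (Option (Fin n × (Fin p × Fin 4))) k, P ≠ 0 ∧ (∀ i, P.degreeOf i ≤ d) ∧
      (∀ e, mulHeight₁ (P.coeff e) ≤ T ^ A) ∧ ‖eval₂ σ (numP σ s z) P‖ ≤ T ^ (-B)}

theorem pointsmain {p : ℕ} (σ : k →+* ℂ) (s : Fin p → ℝ) (hs0 : ∀ i, 0 < s i)
    (hs : ∀ c : Fin p → ℤ, ∑ k, (c k : ℝ) * s k = 0 → c = 0) (n d : ℕ) (hn : 1 ≤ n) (K : Set ℂ) (hK : IsCompact K)
    (hKH : ∀ z ∈ K, 0 < z.im) (A ε : ℝ) (hε : 0 < ε) :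
    ∃ (D : ℕ) (B C : ℝ), ∀ T : ℝ, 1 ≤ T →
      (∃ Φ : Finset (MvPolynomial (Fin n) k), (Φ.card : ℝ) ≤ C * T ^ ε ∧ (∀ Q ∈ Φ, Q ≠ 0 ∧ Q.totalDegree ≤ D) ∧
        ∀ t ∈ ExcP σ n d s K A B T, ∃ Q ∈ Φ, eval t Q = 0) ∧ (ExcP σ n d s K A B T).Finite ∧
      ((ExcP σ n d s K A B T).ncard : ℝ) ≤ C * T ^ ε * ({x : k | mulHeight₁ x ≤ T}.ncard : ℝ) ^ (n - 1) := by
  classical
  have hnn : Nonempty (Fin n) := ⟨⟨0, hn⟩⟩
  obtain ⟨D, B, C, hC, h⟩ := stdK σ σ (fun _ => rfl) (fun _ : Fin n => fP s) (fun _ : Unit => Real.pi)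
    (fun _ => {z : ℂ | 0 < z.im}) (fun _ => K) (fun _ => preconn_H) (fun _ => hKH) (fun _ => hK)
    (fun _ => fP_an s hs0) (fun _ => fP_ind s hs0 hs) goodXi_pi d A ε hε
  have hsub : ∀ T, ExcP σ n d s K A B T ⊆ ExcK σ (fun _ : Fin n => fP s) (fun _ : Unit => Real.pi) (fun _ => K) d A B T := by
    rintro T t ⟨ht, P, hP0, hPd, hPc, hPs⟩
    refine ExcK_of_rename (Equiv.optionEquivSumPUnit (Fin n × (Fin p × Fin 4))) σ _ _ _ d A B T t ht (numP σ s t) ?_ P hP0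
      hPd hPc hPs
    intro w
    cases w with
    | none => simp [numP]
    | some w => simp [numP, fP]
  obtain ⟨C', hC'⟩ := finish hn ε D C hC (fun T => ExcP σ n d s K A B T) (fun T _ t ht j => (ht.1 j).2)
    (fun T hT => (h T hT).mono le_rfl le_rfl (hsub T))
  exact ⟨D, B, C', hC'⟩

end Pool.Agent.Y771.KF
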