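import Pool.Agent.Y771.KF.Real

/-!
# Values of `j`, `j'`, `j''` at points `i f (x)`, `x` in a real number field
-/

set_option autoImplicit false

open Filter Topology Height Height.AdmissibleAbsValues MvPolynomial Pool.Agent.Y124 Pool.Agent.TH21.MS

namespace Pool.Agent.Y771.KF

variable {k : Type} [Field k] [NumberField k]

/-- the numbers of the ladder theorem -/
noncomputable def numLK {r m p n : ℕ} (τ : k →+* ℝ) (σ : Fin r → ℝ) (ρ : Fin m → ℝ) (s : Fin m → Fin p → ℝ)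
    (x : Fin n → k) : Option (Fin n × (Option (Fin r) ⊕ (Fin m × (Fin p × Fin 4)))) → ℂ
  | none => (Real.pi : ℂ)
  | some (l, Sum.inl none) => (Real.log (τ (x l)) : ℂ)
  | some (l, Sum.inl (some i)) => (((τ (x l) : ℝ) ^ σ i : ℝ) : ℂ)
  | some (l, Sum.inr (i, j, q)) => jet4 (Complex.I * ((s i j * (τ (x l) : ℝ) ^ ρ i : ℝ) : ℂ)) q

theorem numLK_eq {r m p n : ℕ} (τ : k →+* ℝ) (σ : Fin r → ℝ) (ρ : Fin m → ℝ) (s : Fin m → Fin p → ℝ)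
    (hs : ∀ i j, 0 < s i j) (x : Fin n → k) (hx : ∀ l, (0 : ℝ) < τ (x l)) :
    numLK τ σ ρ s x = numIK τ (uL σ ρ s) sL x := by
  funext i
  rcases i with _ | ⟨l, (_ | i) | ⟨i, k, q⟩⟩
  · rfl
  · simp [numLK, numIK, uL, ub, sL]
  · simp [numLK, numIK, uL, ub, sL]
  · exact jet4_I (s i k * (τ (x l) : ℝ) ^ ρ i) (mul_pos (hs i k) (Real.rpow_pos_of_pos (hx l) _)) q

/-- the exceptional tuples -/
def ExcLK {r m p : ℕ} (τ : k →+* ℝ) (n d : ℕ) (σ : Fin r → ℝ) (ρ : Fin m → ℝ) (s : Fin m → Fin p → ℝ)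
    (a b A B T : ℝ) : Set (Fin n → k) :=
  {x | (∀ l, τ (x l) ∈ Set.Icc a b ∧ mulHeight₁ (x l) ≤ T) ∧
    ∃ P : MvPolynomial (Option (Fin n × (Option (Fin r) ⊕ (Fin m × (Fin p × Fin 4))))) k, P ≠ 0 ∧
      (∀ i, P.degreeOf i ≤ d) ∧ (∀ e, mulHeight₁ (P.coeff e) ≤ T ^ A) ∧
      ‖eval₂ (Complex.ofRealHom.comp τ) (numLK τ σ ρ s x) P‖ ≤ T ^ (-B)}

theorem ladmainK {r m p : ℕ} (τ : k →+* ℝ) (σ : Fin r → ℝ) (ρ : Fin m → ℝ) (s : Fin m → Fin p → ℝ) (h0 : ∀ i, 0 < ρ i)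
    (hmono : StrictMono ρ)
    (hσ : ∀ (c0 : ℤ) (c : Fin r → ℤ), (c0 : ℝ) + ∑ k, (c k : ℝ) * σ k = 0 → c0 = 0 ∧ c = 0)
    (hs : ∀ i k, 0 < s i k) (hs' : ∀ i, ∀ c : Fin p → ℤ, ∑ k, (c k : ℝ) * s i k = 0 → c = 0)
    (n d : ℕ) (hn : 1 ≤ n) (A a b : ℝ) (ha : 0 < a) (hab : a < b) (ε : ℝ) (hε : 0 < ε) :
    ∃ (D : ℕ) (B C : ℝ), ∀ T : ℝ, 1 ≤ T →
      (∃ Φ : Finset (MvPolynomial (Fin n) k), (Φ.card : ℝ) ≤ C * T ^ ε ∧ (∀ Q ∈ Φ, Q ≠ 0 ∧ Q.totalDegree ≤ D) ∧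
        ∀ t ∈ ExcLK τ n d σ ρ s a b A B T, ∃ Q ∈ Φ, eval t Q = 0) ∧ (ExcLK τ n d σ ρ s a b A B T).Finite ∧
      ((ExcLK τ n d σ ρ s a b A B T).ncard : ℝ) ≤ C * T ^ ε * ({x : k | mulHeight₁ x ≤ T}.ncard : ℝ) ^ (n - 1) := by
  obtain ⟨h, hLB⟩ := LB_uL σ ρ s h0 hmono hσ hs hs'
  obtain ⟨D, B, C, hBC⟩ := count2K τ (uL σ ρ s) sL h a (uL_an σ ρ s a ha hs) hLB n d hn A a b le_rfl hab ε hε
  refine ⟨D, B, C, fun T hT => ?_⟩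
  have hset : ExcLK τ n d σ ρ s a b A B T = ExcIK τ n d (uL σ ρ s) sL a b A B T := by
    ext x
    simp only [ExcLK, ExcIK, Set.mem_ofPred_eq]
    refine and_congr_right fun hx => ?_
    rw [numLK_eq τ σ ρ s hs x fun l => ha.trans_le (hx l).1.1]
  rw [hset]
  exact hBC T hT

/-- the numbers `π` and `j, j', j''` at the points `i f_k (x_j)` -/
noncomputable def numCK {m n : ℕ} (τ : k →+* ℝ) (f : Fin m → ℝ → ℝ) (x : Fin n → k)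
    (i : Option (Fin n × (Fin m × Fin 3))) : ℂ :=
  i.elim (Real.pi : ℂ) fun q => jet (Complex.I * (f q.2.1 (τ (x q.1)) : ℂ)) q.2.2

theorem numCK_eq {m n : ℕ} (τ : k →+* ℝ) (f : Fin m → ℝ → ℝ) (x : Fin n → k) (hpos : ∀ i j, 0 < f i (τ (x j))) :
    numCK τ f x = numIK τ (uj f) (fun p : Fin m × Fin 3 => sj p.2) x := by
  funext i
  cases i with
  | none => rfl
  | some q => exact jet_I (f q.2.1 (τ (x q.1))) (hpos _ _) q.2.2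

/-- the exceptional tuples -/
def ExcCK {m : ℕ} (τ : k →+* ℝ) (n d : ℕ) (f : Fin m → ℝ → ℝ) (a b A B T : ℝ) : Set (Fin n → k) :=
  {x | (∀ l, τ (x l) ∈ Set.Icc a b ∧ mulHeight₁ (x l) ≤ T) ∧
    ∃ P : MvPolynomial (Option (Fin n × (Fin m × Fin 3))) k, P ≠ 0 ∧ (∀ i, P.degreeOf i ≤ d) ∧
      (∀ e, mulHeight₁ (P.coeff e) ≤ T ^ A) ∧
      ‖eval₂ (Complex.ofRealHom.comp τ) (numCK τ f x) P‖ ≤ T ^ (-B)}

theorem compmainK {m : ℕ} (τ : k →+* ℝ) (f : Fin m → ℝ → ℝ) (a0 : ℝ)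
    (han : ∀ k, AnalyticOnNhd ℝ (f k) (Set.Ici a0)) (hpos : ∀ k, ∀ t, a0 ≤ t → 0 < f k t)
    (K : ℝ) (hK : ∀ k l, ∀ᶠ t in atTop, f l t ≤ K * f k t)
    (hH : ∀ c : Fin m → ℤ, c ≠ 0 → Tendsto (fun t => |∑ k, (c k : ℝ) * f k t| / Real.log t) atTop atTop)
    (n d : ℕ) (hn : 1 ≤ n) (A a b : ℝ) (ha : a0 ≤ a) (hab : a < b) (ε : ℝ) (hε : 0 < ε) :
    ∃ (D : ℕ) (B C : ℝ), ∀ T : ℝ, 1 ≤ T →
      (∃ Φ : Finset (MvPolynomial (Fin n) k), (Φ.card : ℝ) ≤ C * T ^ ε ∧ (∀ Q ∈ Φ, Q ≠ 0 ∧ Q.totalDegree ≤ D) ∧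
        ∀ t ∈ ExcCK τ n d f a b A B T, ∃ Q ∈ Φ, eval t Q = 0) ∧ (ExcCK τ n d f a b A B T).Finite ∧
      ((ExcCK τ n d f a b A B T).ncard : ℝ) ≤ C * T ^ ε * ({x : k | mulHeight₁ x ≤ T}.ncard : ℝ) ^ (n - 1) := by
  obtain ⟨h, hLB⟩ := LB_comp f a0 han hpos K hK hH
  obtain ⟨D, B, C, hBC⟩ := count2K τ (uj f) (fun p : Fin m × Fin 3 => sj p.2) h a0 (uj_an f a0 han hpos) hLB n d hn A a b
    ha hab ε hε
  refine ⟨D, B, C, fun T hT => ?_⟩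
  have hset : ExcCK τ n d f a b A B T = ExcIK τ n d (uj f) (fun p : Fin m × Fin 3 => sj p.2) a b A B T := by
    ext x
    simp only [ExcCK, ExcIK, Set.mem_ofPred_eq]
    refine and_congr_right fun hx => ?_
    rw [numCK_eq τ f x fun i l => hpos i _ (ha.trans (hx l).1.1)]
  rw [hset]
  exact hBC T hT

end Pool.Agent.Y771.KF
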