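import Pool.Agent.Y771.KF.Std
import Pool.Agent.Y124.App
import Pool.Agent.TH21.MS.Multi

/-!
# Tools for applications: independence of functions, counting
-/

set_option autoImplicit false

open Filter Topology Height Height.AdmissibleAbsValues MvPolynomial Pool.Agent.Y124

namespace Pool.Agent.Y771.KF

/-- algebraic independence over `ℝ(t)` from linear independence of monomials over `ℝ[t]` -/
theorem aindep_of_rindep {κ : Type} [Fintype κ] [DecidableEq κ] (u : κ → ℝ → ℝ) (a b : ℝ)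
    (h : ∀ d : ℕ, TH818.AP.RIndep (fun (e : κ → Fin (d + 1)) (t : ℝ) => ∏ y, u y t ^ (e y : ℕ)) a b) :
    AIndep u a b := by
  classical
  intro P hP
  by_contra hP0
  obtain ⟨s0, hs0⟩ := support_nonempty.2 hP0
  set d := P.totalDegree with hd
  have hle : ∀ s ∈ P.support, ∀ o, s o ≤ d := fun s hs o =>
    (monomial_le_degreeOf o hs).trans (degreeOf_le_totalDegree P o)
  let ex : ℕ → (κ → Fin (d + 1)) → (Option κ →₀ ℕ) := fun i e =>
    Finsupp.equivFunOnFinite.symm fun o => o.elim i fun y => (e y : ℕ)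
  let p : (κ → Fin (d + 1)) → Polynomial ℝ := fun e =>
    ∑ i ∈ Finset.range (d + 1), Polynomial.monomial i (P.coeff (ex i e))
  have hp := h d p (by
    intro t ht
    have h1 := hP t ht
    rw [eval_eq'] at h1
    rw [← h1]
    have h2 : ∀ e, (p e).eval t * ∏ y, u y t ^ (e y : ℕ) = ∑ i ∈ Finset.range (d + 1),
        (fun s : Option κ →₀ ℕ => P.coeff s *
          ∏ o, (o.elim t fun y : κ => u y t) ^ s o) (ex i e) := by
      intro e
      simp only [p]
      rw [Polynomial.eval_finsetSum, Finset.sum_mul]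
      refine Finset.sum_congr rfl fun i _ => ?_
      rw [Polynomial.eval_monomial, Fintype.prod_option]
      simp only [ex, Finsupp.equivFunOnFinite_symm_apply_apply, Option.elim_none, Option.elim_some]
      ring
    rw [Finset.sum_congr rfl fun e _ => h2 e]
    rw [Finset.sum_comm, ← Finset.sum_product']
    rw [← Finset.sum_image (s := Finset.range (d + 1) ×ˢ (Finset.univ : Finset (κ → Fin (d + 1))))
      (g := fun x => ex x.1 x.2) (f := fun s : Option κ →₀ ℕ => P.coeff s *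
          ∏ o, (o.elim t fun y : κ => u y t) ^ s o)]
    · refine (Finset.sum_subset ?_ ?_).symm
      · intro s hs
        rw [Finset.mem_image]
        refine ⟨(s none, fun y => ⟨s (some y), Nat.lt_succ_of_le (hle s hs _)⟩), ?_, ?_⟩
        · rw [Finset.mem_product]
          exact ⟨Finset.mem_range.2 (Nat.lt_succ_of_le (hle s hs _)), Finset.mem_univ _⟩
        · ext o
          cases o <;> simp [ex]
      · intro s _ hs
        rw [notMem_support_iff.1 hs, zero_mul]
    · intro x _ y _ hxy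
      have h3 := Finsupp.equivFunOnFinite.symm.injective hxy
      refine Prod.ext (congrFun h3 none) (funext fun j => Fin.ext (congrFun h3 (some j))))
  have h1 := congrFun hp (fun y => ⟨s0 (some y), Nat.lt_succ_of_le (hle s0 hs0 _)⟩)
  have h2 := congrArg (fun r => Polynomial.coeff r (s0 none)) h1
  simp only [p, Polynomial.finsetSum_coeff, Polynomial.coeff_monomial, Pi.zero_apply, Polynomial.coeff_zero] at h2
  rw [Finset.sum_ite_eq' (Finset.range (d + 1)) (s0 none), if_pos (Finset.mem_range.2 (Nat.lt_succ_of_le (hle s0 hs0 _)))] at h2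
  apply mem_support_iff.1 hs0
  rw [← h2]
  congr 1
  ext o
  cases o <;> simp [ex]

/-- independence for a complex variable from independence on a real segment -/
theorem aindepS_of_real {κ : Type} [Fintype κ] (u : κ → ℝ → ℝ) (a b : ℝ) (h : AIndep u a b) (f : κ → ℂ → ℂ)
    (S : Set ℂ) (c : ℂ) (hc : c ≠ 0) (ζ : κ → ℂ) (hζ : ∀ y, ζ y ≠ 0) (hS : ∀ t ∈ Set.Icc a b, c * (t : ℂ) ∈ S)
    (hf : ∀ y, ∀ t ∈ Set.Icc a b, f y (c * (t : ℂ)) = ζ y * ((u y t : ℝ) : ℂ)) : AIndepS f S := by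
  classical
  intro P hP
  let g : Option κ → ℂ := fun o => o.elim c ζ
  have hg : ∀ o, g o ≠ 0 := by
    intro o
    cases o with
    | none => exact hc
    | some y => exact hζ y
  let cc : (Option κ →₀ ℕ) → ℂ := fun s => P.coeff s * ∏ o, g o ^ s o
  have hval : ∀ t ∈ Set.Icc a b, ∑ s ∈ P.support, cc s * ((∏ o, (o.elim t fun y => u y t) ^ s o : ℝ) : ℂ) = 0 := by
    intro t ht
    have h1 := hP (c * t) (hS t ht)
    rw [eval_eq'] at h1
    rw [← h1]
    refine Finset.sum_congr rfl fun s _ => ?_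
    simp only [cc]
    rw [mul_assoc]
    congr 1
    push_cast
    rw [← Finset.prod_mul_distrib]
    refine Finset.prod_congr rfl fun o _ => ?_
    rw [← mul_pow]
    congr 1
    cases o with
    | none => rfl
    | some y => exact (hf y t ht).symm
  have key : ∀ φ : ℂ → ℝ, (∀ x y, φ (x + y) = φ x + φ y) → (φ 0 = 0) → (∀ x : ℂ, ∀ r : ℝ, φ (x * (r : ℂ)) = φ x * r) →
      ∀ s ∈ P.support, φ (cc s) = 0 := by
    intro φ hadd h0 hmul s hs
    have h1 := h (∑ s ∈ P.support, monomial s (φ (cc s))) (by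
      intro t ht
      have h2 := congrArg φ (hval t ht)
      rw [h0] at h2
      rw [← h2, map_sum]
      have h3 : ∀ (F : Finset (Option κ →₀ ℕ)) (w : (Option κ →₀ ℕ) → ℂ), φ (∑ s ∈ F, w s) = ∑ s ∈ F, φ (w s) := by
        intro F w
        induction F using Finset.induction_on with
        | empty => simpa using h0
        | insert a F ha ih => rw [Finset.sum_insert ha, Finset.sum_insert ha, hadd, ih]
      rw [h3]
      refine Finset.sum_congr rfl fun s _ => ?_
      rw [hmul, eval_monomial, Finsupp.prod_fintype _ _ (fun _ => pow_zero _)])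
    have h2 := congrArg (coeff s) h1
    rw [coeff_sum, coeff_zero] at h2
    simp only [coeff_monomial] at h2
    rwa [Finset.sum_ite_eq' P.support s, if_pos hs] at h2
  by_contra hP0
  obtain ⟨s0, hs0⟩ := support_nonempty.2 hP0
  have hre := key Complex.re (fun x y => Complex.add_re x y) rfl (fun x r => Complex.re_mul_ofReal x r) s0 hs0
  have him := key Complex.im (fun x y => Complex.add_im x y) rfl (fun x r => Complex.im_mul_ofReal x r) s0 hs0
  have h3 : cc s0 = 0 := Complex.ext hre him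
  rcases mul_eq_zero.1 h3 with h4 | h4
  · exact mem_support_iff.1 hs0 h4
  · rw [Finset.prod_eq_zero_iff] at h4
    obtain ⟨o, -, h5⟩ := h4
    exact pow_ne_zero (s0 o) (hg o) h5

/-- the same for the real case -/
theorem aindepS_real {κ : Type} (u : κ → ℝ → ℝ) (a b : ℝ) (h : AIndep u a b) : AIndepS u (Set.Icc a b) := h

variable {k : Type} [Field k] [NumberField k]

theorem card_zeros' [DecidableEq k] {n : ℕ} (hn : 1 ≤ n) (F : Finset k) (P : MvPolynomial (Fin n) k) (hP : P ≠ 0) :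
    ((Fintype.piFinset fun _ : Fin n => F).filter fun t => eval t P = 0).card ≤ P.totalDegree * F.card ^ (n - 1) := by
  classical
  rcases F.eq_empty_or_nonempty with rfl | hF
  · have h1 : (Fintype.piFinset fun _ : Fin n => (∅ : Finset k)) = ∅ := by
      have : Nonempty (Fin n) := ⟨⟨0, hn⟩⟩
      exact Fintype.piFinset_empty
    rw [h1]
    simp
  · have h1 := schwartz_zippel_totalDegree hP F
    have hF0 : (0 : ℚ≥0) < F.card := by exact_mod_cast hF.card_pos
    rw [div_le_div_iff₀ (by positivity) hF0] at h1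
    have h2 : (F.card : ℚ≥0) ^ n = F.card ^ (n - 1) * F.card := by
      rw [← pow_succ, Nat.sub_add_cancel hn]
    rw [h2, ← mul_assoc] at h1
    have h3 := le_of_mul_le_mul_right h1 hF0
    exact_mod_cast h3

theorem count_cov' {n : ℕ} (hn : 1 ≤ n) (F : Finset k) (D m : ℕ) (S : Set (Fin n → k)) (hS : ∀ t ∈ S, ∀ j, t j ∈ F)
    (hcov : Cov D m S) : S.Finite ∧ S.ncard ≤ m * (D * F.card ^ (n - 1)) := by
  classical
  obtain ⟨Φ, h1, h2, h3⟩ := hcov
  have hsub : S ⊆ (Φ.biUnion fun P => (Fintype.piFinset fun _ : Fin n => F).filter fun t => eval t P = 0 :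
      Finset (Fin n → k)) := by
    intro t ht
    obtain ⟨P, hP, h⟩ := h3 t ht
    rw [Finset.mem_coe, Finset.mem_biUnion]
    exact ⟨P, hP, Finset.mem_filter.2 ⟨Fintype.mem_piFinset.2 (hS t ht), h⟩⟩
  refine ⟨(Finset.finite_toSet _).subset hsub, ?_⟩
  have h4 := Set.ncard_le_ncard hsub (Finset.finite_toSet _)
  rw [Set.ncard_coe_finset] at h4
  refine h4.trans (Finset.card_biUnion_le.trans ?_)
  refine (Finset.sum_le_card_nsmul _ _ (D * F.card ^ (n - 1)) ?_).trans ?_
  · intro P hP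
    exact (card_zeros' hn F P (h2 P hP).1).trans (Nat.mul_le_mul_right _ (h2 P hP).2)
  · rw [smul_eq_mul]
    exact Nat.mul_le_mul_right _ h1

theorem FT_card (T : ℝ) : ((FT k T).card : ℝ) = ({x : k | mulHeight₁ x ≤ T}.ncard : ℝ) := by
  congr 1
  rw [← Set.ncard_coe_finset]
  congr 1
  ext x
  simp [mem_FT]

/-- covering and counting in the form of the results -/
theorem finish {n : ℕ} (hn : 1 ≤ n) (ε : ℝ) (D : ℕ) (C : ℝ) (hC : 0 ≤ C) (E : ℝ → Set (Fin n → k))
    (hE : ∀ T : ℝ, 1 ≤ T → ∀ t ∈ E T, ∀ j, mulHeight₁ (t j) ≤ T) (h : ∀ T : ℝ, 1 ≤ T → Cov D ⌊C * T ^ ε⌋₊ (E T)) :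
    ∃ C' : ℝ, ∀ T : ℝ, 1 ≤ T →
      (∃ Φ : Finset (MvPolynomial (Fin n) k), (Φ.card : ℝ) ≤ C' * T ^ ε ∧ (∀ Q ∈ Φ, Q ≠ 0 ∧ Q.totalDegree ≤ D) ∧
        ∀ t ∈ E T, ∃ Q ∈ Φ, eval t Q = 0) ∧ (E T).Finite ∧
      ((E T).ncard : ℝ) ≤ C' * T ^ ε * ({x : k | mulHeight₁ x ≤ T}.ncard : ℝ) ^ (n - 1) := by
  classical
  refine ⟨C * D + C, fun T hT => ?_⟩
  have hTp : 0 < T := by linarith
  have hTε : 0 < T ^ ε := by positivity
  have hD : (0 : ℝ) ≤ D := Nat.cast_nonneg D
  refine ⟨?_, ?_⟩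
  · obtain ⟨Φ, h1, h2, h3⟩ := h T hT
    refine ⟨Φ, ?_, h2, h3⟩
    have h4 : (Φ.card : ℝ) ≤ C * T ^ ε := by
      have h5 : (Φ.card : ℝ) ≤ (⌊C * T ^ ε⌋₊ : ℝ) := by exact_mod_cast h1
      exact h5.trans (Nat.floor_le (by positivity))
    refine h4.trans ?_
    gcongr
    nlinarith
  · obtain ⟨h1, h2⟩ := count_cov' hn (FT k T) D _ (E T) (fun t ht j => mem_FT.2 (hE T hT t ht j)) (h T hT)
    refine ⟨h1, ?_⟩
    have h4 : ((E T).ncard : ℝ) ≤ (⌊C * T ^ ε⌋₊ : ℝ) * (D * ((FT k T).card : ℝ) ^ (n - 1)) := by exact_mod_cast h2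
    rw [FT_card] at h4
    refine h4.trans ?_
    have h6 := Nat.floor_le (by positivity : 0 ≤ C * T ^ ε)
    calc (⌊C * T ^ ε⌋₊ : ℝ) * (D * ({x : k | mulHeight₁ x ≤ T}.ncard : ℝ) ^ (n - 1))
        ≤ (C * T ^ ε) * (D * ({x : k | mulHeight₁ x ≤ T}.ncard : ℝ) ^ (n - 1)) := by gcongr
      _ = (C * D) * T ^ ε * ({x : k | mulHeight₁ x ≤ T}.ncard : ℝ) ^ (n - 1) := by ring
      _ ≤ (C * D + C) * T ^ ε * ({x : k | mulHeight₁ x ≤ T}.ncard : ℝ) ^ (n - 1) := by
          gcongr
          linarith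

/-- renaming of variables -/
theorem ExcK_of_rename {𝕜 : Type} [RCLike 𝕜] {X Y₀ Yc W : Type} (e : W ≃ (X × Y₀) ⊕ Yc) (σ : k →+* 𝕜)
    (f : X → Y₀ → 𝕜 → 𝕜) (ξ : Yc → ℝ) (Kc : X → Set 𝕜) (d : ℕ) (A B T : ℝ) (t : X → k)
    (ht : ∀ x, σ (t x) ∈ Kc x ∧ mulHeight₁ (t x) ≤ T) (v : W → 𝕜)
    (hv : ∀ w, v w = Sum.elim (fun c : X × Y₀ => f c.1 c.2 (σ (t c.1))) (fun c => ((ξ c : ℝ) : 𝕜)) (e w))
    (P : MvPolynomial W k) (hP : P ≠ 0)
    (hd : ∀ i, P.degreeOf i ≤ d) (hc : ∀ s, mulHeight₁ (P.coeff s) ≤ T ^ A) (hs : ‖eval₂ σ v P‖ ≤ T ^ (-B)) :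
    t ∈ ExcK σ f ξ Kc d A B T := by
  classical
  refine ⟨ht, rename e P, ?_, ?_, ?_, ?_⟩
  · intro h
    exact hP (rename_injective e e.injective (by rw [h, map_zero]))
  · intro i
    obtain ⟨w, rfl⟩ := e.surjective i
    rw [degreeOf_rename_of_injective e.injective]
    exact hd w
  · intro s
    have h1 : Finsupp.mapDomain e (Finsupp.mapDomain e.symm s) = s := by
      rw [← Finsupp.mapDomain_comp]
      simp
    rw [← h1, coeff_rename_mapDomain e e.injective]
    exact hc _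
  · rw [eval₂_rename]
    have h1 : (Sum.elim (fun c : X × Y₀ => f c.1 c.2 (σ (t c.1))) fun c => ((ξ c : ℝ) : 𝕜)) ∘ e = v := by
      funext w
      exact (hv w).symm
    rw [h1]
    exact hs

end Pool.Agent.Y771.KF
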