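import Pool.Agent.Y771.KF.Ht
import Pool.Agent.Y124.BigQ

/-!
# The field of germs of elements of polynomially bounded height of a number field
-/

set_option autoImplicit false

open Filter Topology Height Height.AdmissibleAbsValues MvPolynomial Pool.Agent.Y124

namespace Pool.Agent.Y771.KF

variable {k : Type} [Field k] [NumberField k] {𝒰 : Ultrafilter ℕ} {H : ℕ → ℝ}

/-- the map of ultrapowers induced by a homomorphism of fields -/
def fmap {K L : Type*} [Field K] [Field L] (𝒰 : Ultrafilter ℕ) (σ : K →+* L) : UL 𝒰 K →+* UL 𝒰 L where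
  toFun := Germ.map σ
  map_one' := by
    change ((_ : ℕ → L) : (𝒰 : Filter ℕ).Germ L) = ((1 : ℕ → L) : (𝒰 : Filter ℕ).Germ L)
    congr 1
    funext n
    exact map_one σ
  map_zero' := by
    change ((_ : ℕ → L) : (𝒰 : Filter ℕ).Germ L) = ((0 : ℕ → L) : (𝒰 : Filter ℕ).Germ L)
    congr 1
    funext n
    exact map_zero σ
  map_mul' := by
    intro a b
    induction a using Germ.inductionOn with
    | _ f =>
      induction b using Germ.inductionOn with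
      | _ g =>
        change ((_ : ℕ → L) : (𝒰 : Filter ℕ).Germ L) = ((_ : ℕ → L) : (𝒰 : Filter ℕ).Germ L)
        congr 1
        funext n
        exact map_mul σ _ _
  map_add' := by
    intro a b
    induction a using Germ.inductionOn with
    | _ f =>
      induction b using Germ.inductionOn with
      | _ g =>
        change ((_ : ℕ → L) : (𝒰 : Filter ℕ).Germ L) = ((_ : ℕ → L) : (𝒰 : Filter ℕ).Germ L)
        congr 1
        funext n
        exact map_add σ _ _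

theorem fmap_coe {K L : Type*} [Field K] [Field L] (𝒰 : Ultrafilter ℕ) (σ : K →+* L) (f : ℕ → K) :
    fmap 𝒰 σ (f : (𝒰 : Filter ℕ).Germ K) = ((fun n => σ (f n) : ℕ → L) : (𝒰 : Filter ℕ).Germ L) := rfl

/-- the field of germs of elements of polynomially bounded height -/
noncomputable def KK (k : Type) [Field k] [NumberField k] (hH : Tendsto H (𝒰 : Filter ℕ) atTop) :
    Subfield (UL 𝒰 k) where
  carrier := {g | ∃ f : ℕ → k, ((f : ℕ → k) : (𝒰 : Filter ℕ).Germ k) = g ∧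
    ∃ c : ℕ, ∀ᶠ n in (𝒰 : Filter ℕ), mulHeight₁ (f n) ≤ H n ^ c}
  mul_mem' := by
    rintro _ _ ⟨f, rfl, c, hf⟩ ⟨f', rfl, c', hf'⟩
    refine ⟨f * f', rfl, c + c', ?_⟩
    filter_upwards [hf, hf', hH.eventually_ge_atTop 1] with n h1 h2 h3
    rw [Pi.mul_apply, pow_add]
    refine (mulHeight₁_mul_le _ _).trans ?_
    exact mul_le_mul h1 h2 (mulHeight₁_nonneg _) (by positivity)
  one_mem' := by
    refine ⟨1, rfl, 0, Eventually.of_forall fun n => ?_⟩
    simp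
  add_mem' := by
    rintro _ _ ⟨f, rfl, c, hf⟩ ⟨f', rfl, c', hf'⟩
    refine ⟨f + f', rfl, 1 + c + c', ?_⟩
    filter_upwards [hf, hf', hH.eventually_ge_atTop 1, hH.eventually_ge_atTop (2 ^ totalWeight k)] with n h1 h2 h3 h4
    rw [Pi.add_apply, pow_add, pow_add, pow_one]
    refine (mulHeight₁_add_le _ _).trans ?_
    have h5 := mulHeight₁_nonneg (f n)
    have h6 := mulHeight₁_nonneg (f' n)
    gcongr
  zero_mem' := by
    refine ⟨0, rfl, 0, Eventually.of_forall fun n => ?_⟩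
    simp
  neg_mem' := by
    rintro _ ⟨f, rfl, c, hf⟩
    refine ⟨-f, rfl, c, hf.mono fun n hn => ?_⟩
    rw [Pi.neg_apply, mulHeight₁_neg]
    exact hn
  inv_mem' := by
    rintro _ ⟨f, rfl, c, hf⟩
    refine ⟨f⁻¹, rfl, c, hf.mono fun n hn => ?_⟩
    rw [Pi.inv_apply, mulHeight₁_inv]
    exact hn

theorem coe_mem_KK (hH : Tendsto H (𝒰 : Filter ℕ) atTop) (c : ℕ) (g : ℕ → k)
    (h : ∀ᶠ n in (𝒰 : Filter ℕ), g n ∈ {x : k | mulHeight₁ x ≤ H n ^ c}) :
    ((g : ℕ → k) : (𝒰 : Filter ℕ).Germ k) ∈ KK k hH :=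
  ⟨g, rfl, c, h⟩

theorem KK_mod {𝕜 : Type} [RCLike 𝕜] (σ : k →+* 𝕜) (τ : k →+* ℂ) (hτ : ∀ a, ‖σ a‖ = ‖τ a‖)
    (hH : Tendsto H (𝒰 : Filter ℕ) atTop) (a : KK k hH) : IsMod 𝒰 H (gmap 𝒰 σ (a : UL 𝒰 k)) := by
  obtain ⟨f, hf, c, h⟩ := a.2
  rw [← hf, gmap_coe, isMod_coe]
  refine ⟨c, h.mono fun n hn => ?_⟩
  rw [hτ]
  exact (norm_le_ht τ _).trans hn

/-! ## `KK` is algebraic over `KQ` -/

theorem ht_int_le (m : ℤ) : mulHeight₁ ((m : ℤ) : k) ≤ (max |(m : ℝ)| 1) ^ totalWeight k := by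
  classical
  have h := ht_le_of_local (K := k) (∅ : Finset ℕ) ((m : ℤ) : k) (fun _ => (0 : k)) (max |(m : ℝ)| 1) (by positivity)
    ?_ ?_
  · simpa using h
  · intro v _
    rw [Finset.prod_empty, mul_one]
    refine max_le_max ?_ le_rfl
    rw [← AbsoluteValue.apply_natAbs_eq]
    refine (v.apply_nat_le_self _).trans (le_of_eq ?_)
    rw [Nat.cast_natAbs, Int.cast_abs]
  · intro v hv
    rw [Finset.prod_empty]
    exact max_le (IsNonarchimedean.apply_intCast_le_one (isNonarchimedean v hv)) le_rfl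

theorem ht_rat_le (x : ℚ) (R : ℝ) (hR : 1 ≤ R) (h1 : |(x : ℝ)| ≤ R) (h2 : (x.den : ℝ) ≤ R) :
    mulHeight₁ (algebraMap ℚ k x) ≤ R ^ (3 * totalWeight k) := by
  have hden : (0 : ℝ) < (x.den : ℝ) := by exact_mod_cast x.den_pos
  have hx : algebraMap ℚ k x = ((x.num : ℤ) : k) * (((x.den : ℤ) : k))⁻¹ := by
    conv_lhs => rw [← Rat.num_div_den x]
    simp [div_eq_mul_inv]
  have hnum : |((x.num : ℤ) : ℝ)| ≤ R ^ 2 := by
    have h3 : ((x.num : ℤ) : ℝ) = (x : ℝ) * (x.den : ℝ) := by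
      have := Rat.mul_den_eq_num x
      exact_mod_cast this.symm
    rw [h3, abs_mul, abs_of_pos hden, sq]
    exact mul_le_mul h1 h2 hden.le (by linarith)
  rw [hx]
  refine (mulHeight₁_mul_le _ _).trans ?_
  rw [mulHeight₁_inv]
  have h4 : mulHeight₁ ((x.num : ℤ) : k) ≤ (R ^ 2) ^ totalWeight k := by
    refine (ht_int_le x.num).trans (pow_le_pow_left₀ (by positivity) (max_le hnum (one_le_pow₀ hR)) _)
  have h5 : mulHeight₁ (((x.den : ℤ)) : k) ≤ R ^ totalWeight k := by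
    refine (ht_int_le _).trans (pow_le_pow_left₀ (by positivity) (max_le ?_ hR) _)
    push_cast
    rw [abs_of_pos hden]
    exact h2
  calc _ ≤ (R ^ 2) ^ totalWeight k * R ^ totalWeight k := mul_le_mul h4 h5 (mulHeight₁_nonneg _) (by positivity)
    _ = R ^ (3 * totalWeight k) := by rw [← pow_mul, ← pow_add]; congr 1; ring

theorem trace_bound (x : k) : |((Algebra.trace ℚ k x : ℚ) : ℝ)| ≤ Fintype.card (k →ₐ[ℚ] ℂ) * mulHeight₁ x := by
  have h1 := trace_eq_sum_embeddings (K := ℚ) (L := k) ℂ (x := x)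
  have h2 : |((Algebra.trace ℚ k x : ℚ) : ℝ)| = ‖algebraMap ℚ ℂ (Algebra.trace ℚ k x)‖ := by
    simp
  rw [h2, h1]
  refine (norm_sum_le _ _).trans ?_
  have h3 : ∀ σ ∈ (Finset.univ : Finset (k →ₐ[ℚ] ℂ)), ‖σ x‖ ≤ mulHeight₁ x := fun σ _ => norm_le_ht (σ : k →+* ℂ) x
  refine (Finset.sum_le_sum h3).trans (le_of_eq ?_)
  rw [Finset.sum_const, Finset.card_univ, nsmul_eq_mul]

theorem trace_den (x : k) : ((Algebra.trace ℚ k x).den : ℝ) ≤ mulHeight₁ x := by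
  obtain ⟨n, hn, hle, hint⟩ := NumberField.exists_nat_le_mulHeight₁ x
  refine le_trans ?_ hle
  have h1 : IsIntegral ℤ (Algebra.trace ℚ k ((n : k) * x)) := Algebra.isIntegral_trace hint
  have h2 : Algebra.trace ℚ k ((n : k) * x) = (n : ℚ) * Algebra.trace ℚ k x := by
    have h3 : (n : k) * x = (n : ℚ) • x := by
      rw [Algebra.smul_def]
      simp
    rw [h3, map_smul, smul_eq_mul]
  rw [h2] at h1
  obtain ⟨m, hm⟩ := IsIntegrallyClosed.isIntegral_iff.1 h1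
  have h4 : Algebra.trace ℚ k x = (m : ℚ) / ((n : ℤ) : ℚ) := by
    have hn0 : (n : ℚ) ≠ 0 := by exact_mod_cast hn
    have h5 : (algebraMap ℤ ℚ) m = (m : ℚ) := rfl
    rw [h5] at hm
    rw [hm]
    push_cast
    field_simp
  rw [h4]
  have h6 : (((m : ℚ) / ((n : ℤ) : ℚ)).den : ℤ) ∣ (n : ℤ) := by
    have h0 := Rat.den_dvd m (n : ℤ)
    rwa [Rat.divInt_eq_div] at h0
  have h7 : ((m : ℚ) / ((n : ℤ) : ℚ)).den ≤ n := by
    have := Int.natAbs_dvd_natAbs.2 h6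
    exact Nat.le_of_dvd (Nat.pos_of_ne_zero hn) (by simpa using this)
  exact_mod_cast h7

/-- the rational germs as elements of `KK` -/
noncomputable def iKQ (k : Type) [Field k] [NumberField k] (hH : Tendsto H (𝒰 : Filter ℕ) atTop) : KQ hH →+* KK k hH :=
  ((fmap 𝒰 (algebraMap ℚ k)).comp (KQ hH).subtype).codRestrict (KK k hH) (by
    rintro ⟨x, f, rfl, c, hf⟩
    refine ⟨fun n => algebraMap ℚ k (f n), rfl, c * (3 * totalWeight k), ?_⟩
    filter_upwards [hf, hH.eventually_ge_atTop 1] with n h1 h2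
    rw [pow_mul]
    exact ht_rat_le (f n) _ (one_le_pow₀ h2) h1.1 h1.2)

/-- constants -/
noncomputable def cst (k : Type) [Field k] [NumberField k] (hH : Tendsto H (𝒰 : Filter ℕ) atTop) : k →+* KK k hH where
  toFun a := ⟨((fun _ => a : ℕ → k) : (𝒰 : Filter ℕ).Germ k), fun _ => a, rfl, 1, by
    filter_upwards [hH.eventually_ge_atTop (mulHeight₁ a)] with n hn
    simpa using hn⟩
  map_one' := rfl
  map_zero' := rfl
  map_mul' _ _ := rfl
  map_add' _ _ := rfl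

/-- rational constants -/
noncomputable def cstQ (hH : Tendsto H (𝒰 : Filter ℕ) atTop) : ℚ →+* KQ hH where
  toFun a := ⟨((fun _ => a : ℕ → ℚ) : (𝒰 : Filter ℕ).Germ ℚ), fun _ => a, rfl, 1, by
    filter_upwards [hH.eventually_ge_atTop (|(a : ℝ)|), hH.eventually_ge_atTop (a.den : ℝ)] with n hn hn'
    exact ⟨by simpa using hn, by simpa using hn'⟩⟩
  map_one' := rfl
  map_zero' := rfl
  map_mul' _ _ := rfl
  map_add' _ _ := rfl

theorem coe_sum_germ' {K : Type*} [Field K] {ι : Type*} (S : Finset ι) (f : ι → ℕ → K) :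
    ((fun n => ∑ i ∈ S, f i n : ℕ → K) : (𝒰 : Filter ℕ).Germ K) = ∑ i ∈ S, ((f i : ℕ → K) : (𝒰 : Filter ℕ).Germ K) := by
  have h := map_sum (Germ.coeRingHom (R := K) (𝒰 : Filter ℕ)) f S
  rw [← Finset.sum_fn]
  exact h

theorem KK_alg (hH : Tendsto H (𝒰 : Filter ℕ) atTop) :
    letI : Algebra (KQ hH) (KK k hH) := (iKQ k hH).toAlgebra
    Algebra.IsAlgebraic (KQ hH) (KK k hH) := by
  classical
  let : Algebra (KQ hH) (KK k hH) := (iKQ k hH).toAlgebra
  -- constants are algebraic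
  have hc : ∀ b : k, IsAlgebraic (KQ hH) (cst k hH b) := by
    intro b
    have hb : IsIntegral ℚ b := Algebra.IsIntegral.isIntegral b
    refine ⟨(minpoly ℚ b).map (cstQ hH), ?_, ?_⟩
    · rw [Ne, Polynomial.map_eq_zero]
      exact minpoly.ne_zero hb
    · rw [Polynomial.aeval_def, Polynomial.eval₂_map]
      have h1 : (algebraMap (KQ hH) (KK k hH)).comp (cstQ hH) = (cst k hH).comp (algebraMap ℚ k) :=
        RingHom.ext_rat _ _
      rw [h1, ← Polynomial.hom_eval₂]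
      have h2 := minpoly.aeval ℚ b
      rw [Polynomial.aeval_def] at h2
      rw [h2, map_zero]
  refine ⟨fun a => ?_⟩
  obtain ⟨f, hf, c, h⟩ := a.2
  set B := Algebra.traceForm ℚ k with hB
  have hnd : B.Nondegenerate := traceForm_nondegenerate ℚ k
  set b0 := Module.finBasis ℚ k with hb0
  set b := B.dualBasis hnd b0 with hb
  have hrepr : ∀ n, f n = ∑ i, algebraMap ℚ k (Algebra.trace ℚ k (f n * b0 i)) * b i := by
    intro n
    conv_lhs => rw [← b.sum_repr (f n)]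
    refine Finset.sum_congr rfl fun i _ => ?_
    have h1 : B (f n) (b0 i) = Algebra.trace ℚ k (f n * b0 i) := by
      rw [hB, Algebra.traceForm_apply]
    rw [hb, LinearMap.BilinForm.dualBasis_repr_apply, Algebra.smul_def, h1]
  have hy : ∀ i, ((fun n => Algebra.trace ℚ k (f n * b0 i) : ℕ → ℚ) : (𝒰 : Filter ℕ).Germ ℚ) ∈ KQ hH := by
    intro i
    refine coe_mem_KQ hH (1 + c + 1) _ ?_
    filter_upwards [h, hH.eventually_ge_atTop 1, hH.eventually_ge_atTop (Fintype.card (k →ₐ[ℚ] ℂ) : ℝ),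
      hH.eventually_ge_atTop (mulHeight₁ (b0 i))] with n h1 h2 h3 h4
    have h5 : mulHeight₁ (f n * b0 i) ≤ H n ^ c * H n := by
      refine (mulHeight₁_mul_le _ _).trans ?_
      exact mul_le_mul h1 h4 (mulHeight₁_nonneg _) (by positivity)
    constructor
    · refine (trace_bound _).trans ?_
      calc _ ≤ H n * (H n ^ c * H n) := mul_le_mul h3 h5 (mulHeight₁_nonneg _) (by linarith)
        _ = H n ^ (1 + c + 1) := by ring
    · refine (trace_den _).trans (h5.trans ?_)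
      calc H n ^ c * H n = 1 * (H n ^ c * H n) := by ring
        _ ≤ H n * (H n ^ c * H n) := by gcongr
        _ = H n ^ (1 + c + 1) := by ring
  have ha : a = ∑ i, (algebraMap (KQ hH) (KK k hH)) ⟨_, hy i⟩ * cst k hH (b i) := by
    apply Subtype.ext
    rw [← hf]
    have h1 : (f : ℕ → k) = fun n => ∑ i, algebraMap ℚ k (Algebra.trace ℚ k (f n * b0 i)) * b i := funext hrepr
    rw [AddSubmonoidClass.coe_finsetSum]
    conv_lhs => rw [h1]
    rw [coe_sum_germ']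
    rfl
  rw [ha]
  refine Finset.sum_induction _ (fun x => IsAlgebraic (KQ hH) x) (fun x y hx hy => hx.add hy) isAlgebraic_zero
    fun i _ => ?_
  exact (isAlgebraic_algebraMap _).mul (hc _)

/-- a ring homomorphism from the reals -/
theorem bigK {𝕜 : Type} [RCLike 𝕜] (σ : k →+* 𝕜) (τ : k →+* ℂ) (hτ : ∀ a, ‖σ a‖ = ‖τ a‖) {Yc : Type} [Fintype Yc]
    (ξ : Yc → ℝ) (hξ : GoodXi ξ) (hH : Tendsto H (𝒰 : Filter ℕ) atTop) (P : MvPolynomial Yc (KK k hH)) (hP : P ≠ 0) :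
    IsBig 𝒰 H (eval₂Hom ((gmap 𝒰 σ).comp (KK k hH).subtype)
      (fun c => ((fun _ => (ξ c : 𝕜) : ℕ → 𝕜) : (𝒰 : Filter ℕ).Germ 𝕜)) P) := by
  classical
  let : Algebra (KQ hH) (KK k hH) := (iKQ k hH).toAlgebra
  have : Algebra.IsAlgebraic (KQ hH) (KK k hH) := KK_alg hH
  obtain ⟨g, hg0, Q, hQ⟩ := MvPolynomial.exists_dvd_map_of_isAlgebraic (R := KQ hH) (S := KK k hH) hP
  set ev : MvPolynomial Yc (KK k hH) →+* UL 𝒰 𝕜 := eval₂Hom ((gmap 𝒰 σ).comp (KK k hH).subtype)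
      (fun c => ((fun _ => (ξ c : 𝕜) : ℕ → 𝕜) : (𝒰 : Filter ℕ).Germ 𝕜)) with hev
  obtain ⟨f, hf, C, hC⟩ := bigQ ξ hξ hH g hg0
  -- the value of `g`
  have h1 : ev (map (algebraMap (KQ hH) (KK k hH)) g) = ((fun n => (f n : 𝕜) : ℕ → 𝕜) : (𝒰 : Filter ℕ).Germ 𝕜) := by
    have h2 : ((fun n => (f n : 𝕜) : ℕ → 𝕜) : (𝒰 : Filter ℕ).Germ 𝕜) =
        fmap 𝒰 (algebraMap ℝ 𝕜) ((f : ℕ → ℝ) : (𝒰 : Filter ℕ).Germ ℝ) := by
      rw [fmap_coe]
    rw [h2, hf, hev, coe_eval₂Hom, coe_eval₂Hom, eval₂_map, MvPolynomial.hom_eval₂]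
    congr 1
    · ext x
      obtain ⟨x, f', rfl, c, hf'⟩ := x
      change ((fun n => σ (algebraMap ℚ k (f' n)) : ℕ → 𝕜) : (𝒰 : Filter ℕ).Germ 𝕜) =
        ((fun n => algebraMap ℝ 𝕜 (algebraMap ℚ ℝ (f' n)) : ℕ → 𝕜) : (𝒰 : Filter ℕ).Germ 𝕜)
      congr 1
      funext n
      have h3 : σ.comp (algebraMap ℚ k) = (algebraMap ℝ 𝕜).comp (algebraMap ℚ ℝ) := RingHom.ext_rat _ _
      exact RingHom.congr_fun h3 (f' n)
  -- the cofactor is of polynomial growth
  have h4 : ev Q ∈ modR (𝕜 := 𝕜) (𝒰 := 𝒰) hH := by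
    rw [hev, coe_eval₂Hom, eval₂_eq']
    refine Subring.sum_mem _ fun s _ => Subring.mul_mem _ ?_ (Subring.prod_mem _ fun i _ => Subring.pow_mem _ ?_ _)
    · exact KK_mod σ τ hτ hH (coeff s Q)
    · exact isMod_const hH _
  obtain ⟨q, hq, C', hC'⟩ := h4
  have h5 : ∃ p : ℕ → 𝕜, ((p : ℕ → 𝕜) : (𝒰 : Filter ℕ).Germ 𝕜) = ev P := by
    induction ev P using Germ.inductionOn with
    | _ g => exact ⟨g, rfl⟩
  obtain ⟨p, hp⟩ := h5
  refine ⟨p, hp, C' + C, ?_⟩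
  have h6 : ((fun n => (f n : 𝕜) : ℕ → 𝕜) : (𝒰 : Filter ℕ).Germ 𝕜) =
      ((fun n => p n * q n : ℕ → 𝕜) : (𝒰 : Filter ℕ).Germ 𝕜) := by
    rw [← h1, hQ, map_mul, ← hp, ← hq]
    rfl
  filter_upwards [hC, hC', Germ.coe_eq.1 h6, hH.eventually_ge_atTop 1] with n h7 h8 h9 h10
  have h11 : ‖f n‖ = ‖p n‖ * ‖q n‖ := by
    rw [← norm_mul, ← h9, RCLike.norm_ofReal, Real.norm_eq_abs]
  calc (1 : ℝ) ≤ ‖f n‖ * H n ^ C := h7
    _ = ‖p n‖ * ‖q n‖ * H n ^ C := by rw [h11]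
    _ ≤ ‖p n‖ * H n ^ C' * H n ^ C := by gcongr
    _ = ‖p n‖ * H n ^ (C' + C) := by rw [pow_add, mul_assoc]

end Pool.Agent.Y771.KF
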