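import Pool.Agent.Y124.Core

/-!
# Heights of determinants of monomials over number fields, and the Liouville property
-/

set_option autoImplicit false

open Filter Topology Height Height.AdmissibleAbsValues

namespace Pool.Agent.Y771.KF

section gen

variable {K : Type*} [Field K] [AdmissibleAbsValues K]

/-- `x` and all its powers: the local factors have finite support -/
theorem supp_max (x : K) : (fun v : nonarchAbsVal (K := K) => max (v.val x) 1).HasFiniteMulSupport := by
  rcases eq_or_ne x 0 with rfl | hx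
  · refine (Set.finite_empty).subset ?_
    intro v hv
    simp at hv
  · refine (hasFiniteMulSupport hx).subset ?_
    intro v hv
    simp only [Function.mem_mulSupport, ne_eq] at hv ⊢
    intro h
    apply hv
    rw [h, max_self]

/-- a bound for the height from local bounds -/
theorem ht_le_of_local {ι : Type*} (s : Finset ι) (z : K) (y : ι → K) (C : ℝ) (hC : 0 ≤ C)
    (h1 : ∀ v ∈ archAbsVal (K := K), max (v z) 1 ≤ C * ∏ i ∈ s, max (v (y i)) 1)
    (h2 : ∀ v ∈ nonarchAbsVal (K := K), max (v z) 1 ≤ ∏ i ∈ s, max (v (y i)) 1) :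
    mulHeight₁ z ≤ C ^ totalWeight K * ∏ i ∈ s, mulHeight₁ (y i) := by
  classical
  simp only [mulHeight₁_eq, totalWeight]
  rw [Finset.prod_mul_distrib]
  have e1 : ∏ i ∈ s, ∏ᶠ v : nonarchAbsVal (K := K), max (v.val (y i)) 1 =
      ∏ᶠ v : nonarchAbsVal (K := K), ∏ i ∈ s, max (v.val (y i)) 1 :=
    (finprod_prod_comm _ _ fun i _ => supp_max (y i)).symm
  have e2 : C ^ (archAbsVal (K := K)).card * ∏ i ∈ s, ((archAbsVal (K := K)).map fun v => max (v (y i)) 1).prod =
      ((archAbsVal (K := K)).map fun v => C * ∏ i ∈ s, max (v (y i)) 1).prod := by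
    rw [Multiset.prod_map_mul, Multiset.map_const', Multiset.prod_replicate, Multiset.prod_map_prod]
  rw [e1, ← mul_assoc, e2]
  have hb : ∏ᶠ v : nonarchAbsVal (K := K), max (v.val z) 1 ≤ ∏ᶠ v : nonarchAbsVal (K := K), ∏ i ∈ s, max (v.val (y i)) 1 := by
    refine finprod_le_finprod (supp_max z) (fun v => by positivity) ?_ (fun v => h2 v.val v.2)
    have hfin : (⋃ i ∈ s, Function.mulSupport fun v : nonarchAbsVal (K := K) => max (v.val (y i)) 1).Finite :=
      Set.Finite.biUnion (Finset.finite_toSet s) fun i _ => supp_max (y i)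
    refine hfin.subset ?_
    intro v hv
    by_contra hcon
    apply hv
    refine Finset.prod_eq_one fun i hi => ?_
    by_contra hne
    exact hcon (Set.mem_biUnion (Finset.mem_coe.2 hi) hne)
  have ha : ((archAbsVal (K := K)).map fun v => max (v z) 1).prod ≤
      ((archAbsVal (K := K)).map fun v => C * ∏ i ∈ s, max (v (y i)) 1).prod :=
    Multiset.prod_map_le_prod_map₀ _ _ (fun _ _ => by positivity) h1
  refine mul_le_mul ha hb (finprod_nonneg fun _ => by positivity) ?_
  refine Multiset.prod_map_nonneg fun v _ => mul_nonneg hC (Finset.prod_nonneg fun i _ => by positivity)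

/-- the height of a determinant of monomials -/
theorem ht_det_le {J : Type} [Fintype J] [DecidableEq J] (D : ℕ) (x : (J → Fin (D + 1)) → J → K) :
    mulHeight₁ (Matrix.of fun b a : J → Fin (D + 1) => ∏ j, x b j ^ (a j : ℕ)).det ≤
      ((Fintype.card (Equiv.Perm (J → Fin (D + 1))) : ℕ) : ℝ) ^ totalWeight K *
        ∏ p : (J → Fin (D + 1)) × J, mulHeight₁ (x p.1 p.2) ^ D := by
  classical
  have hb : ∀ v : AbsoluteValue K ℝ, ∀ π : Equiv.Perm (J → Fin (D + 1)),
      v (∏ b, (Matrix.of fun b a : J → Fin (D + 1) => ∏ j, x b j ^ (a j : ℕ)) (π b) b) ≤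
        ∏ p : (J → Fin (D + 1)) × J, max (v (x p.1 p.2 ^ D)) 1 := by
    intro v π
    rw [Fintype.prod_prod_type, map_prod, ← Equiv.prod_comp π fun b => ∏ j, max (v (x b j ^ D)) 1]
    refine Finset.prod_le_prod (fun b _ => v.nonneg _) fun b _ => ?_
    rw [Matrix.of_apply, map_prod]
    refine Finset.prod_le_prod (fun j _ => v.nonneg _) fun j _ => ?_
    rw [map_pow, map_pow]
    have h3 : (b j : ℕ) ≤ D := Nat.lt_succ_iff.1 (b j).isLt
    rcases le_total (v (x (π b) j)) 1 with h4 | h4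
    · exact (pow_le_one₀ (v.nonneg _) h4).trans (le_max_right _ _)
    · exact (pow_le_pow_right₀ h4 h3).trans (le_max_left _ _)
  have h := ht_le_of_local (Finset.univ : Finset ((J → Fin (D + 1)) × J))
    (Matrix.of fun b a : J → Fin (D + 1) => ∏ j, x b j ^ (a j : ℕ)).det (fun p => x p.1 p.2 ^ D)
    ((Fintype.card (Equiv.Perm (J → Fin (D + 1))) : ℕ) : ℝ) (Nat.cast_nonneg _) ?_ ?_
  · simpa only [mulHeight₁_pow] using h
  · intro v _
    have h1 : (1 : ℝ) ≤ ((Fintype.card (Equiv.Perm (J → Fin (D + 1))) : ℕ) : ℝ) := by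
      exact_mod_cast Fintype.card_pos
    have h2 : (1 : ℝ) ≤ ∏ p : (J → Fin (D + 1)) × J, max (v (x p.1 p.2 ^ D)) 1 :=
      Finset.one_le_prod fun _ _ => le_max_right _ _
    refine max_le ?_ (by nlinarith)
    rw [Matrix.det_apply]
    refine (v.sum_le _ _).trans ?_
    have h3 : ∀ π ∈ (Finset.univ : Finset (Equiv.Perm (J → Fin (D + 1)))),
        v (Equiv.Perm.sign π • ∏ b, (Matrix.of fun b a : J → Fin (D + 1) => ∏ j, x b j ^ (a j : ℕ)) (π b) b) ≤
          ∏ p : (J → Fin (D + 1)) × J, max (v (x p.1 p.2 ^ D)) 1 := by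
      intro π _
      rcases Int.units_eq_one_or (Equiv.Perm.sign π) with h4 | h4
      · rw [h4, one_smul]
        exact hb v π
      · rw [h4, Units.neg_smul, one_smul, v.map_neg]
        exact hb v π
    refine (Finset.sum_le_sum h3).trans (le_of_eq ?_)
    rw [Finset.sum_const, Finset.card_univ, nsmul_eq_mul]
  · intro v hv
    refine max_le ?_ (Finset.one_le_prod fun _ _ => le_max_right _ _)
    rw [Matrix.det_apply]
    have hne : (Finset.univ : Finset (Equiv.Perm (J → Fin (D + 1)))).Nonempty := Finset.univ_nonempty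
    refine ((isNonarchimedean v hv).apply_sum_le_sup hne).trans (Finset.sup'_le _ _ fun π _ => ?_)
    rcases Int.units_eq_one_or (Equiv.Perm.sign π) with h4 | h4
    · rw [h4, one_smul]
      exact hb v π
    · rw [h4, Units.neg_smul, one_smul, v.map_neg]
      exact hb v π

end gen

section nf

variable {k : Type*} [Field k] [NumberField k]

theorem norm_le_ht (τ : k →+* ℂ) (x : k) : ‖τ x‖ ≤ mulHeight₁ x := by
  classical
  rw [NumberField.mulHeight₁_eq]
  have h1 : ‖τ x‖ ≤ ∏ v : NumberField.InfinitePlace k, max (v x) 1 ^ v.mult := by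
    have h2 : max ((NumberField.InfinitePlace.mk τ) x) 1 ^ (NumberField.InfinitePlace.mk τ).mult ≤
        ∏ v : NumberField.InfinitePlace k, max (v x) 1 ^ v.mult := by
      rw [← Finset.mul_prod_erase Finset.univ (fun v : NumberField.InfinitePlace k => max (v x) 1 ^ v.mult)
        (Finset.mem_univ (NumberField.InfinitePlace.mk τ))]
      refine le_mul_of_one_le_right (by positivity) ?_
      exact Finset.one_le_prod fun v _ => one_le_pow₀ (le_max_right _ _)
    refine le_trans ?_ h2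
    have h3 : ‖τ x‖ = (NumberField.InfinitePlace.mk τ) x := rfl
    rw [h3]
    refine (le_max_left _ 1).trans ?_
    exact le_self_pow₀ (le_max_right _ _) (NumberField.InfinitePlace.mk τ).mult_ne_zero
  have h4 : (1 : ℝ) ≤ ∏ᶠ v : NumberField.FinitePlace k, max (v x) 1 :=
    one_le_finprod fun v => le_max_right _ _
  calc ‖τ x‖ ≤ (∏ v : NumberField.InfinitePlace k, max (v x) 1 ^ v.mult) * 1 := by rw [mul_one]; exact h1
    _ ≤ _ := by
        gcongr

theorem one_le_ht_mul (τ : k →+* ℂ) (x : k) (hx : x ≠ 0) : 1 ≤ mulHeight₁ x * ‖τ x‖ := by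
  have h1 := norm_le_ht τ x⁻¹
  rw [mulHeight₁_inv, map_inv₀, norm_inv] at h1
  have h2 : 0 < ‖τ x‖ := norm_pos_iff.2 ((map_ne_zero τ).2 hx)
  rwa [inv_le_iff_one_le_mul₀ h2] at h1

theorem LPK {𝕜 : Type} [RCLike 𝕜] {𝒰 : Ultrafilter ℕ} {H : ℕ → ℝ} (σ : k →+* 𝕜) (τ : k →+* ℂ)
    (hτ : ∀ a, ‖σ a‖ = ‖τ a‖) (hH : Tendsto H (𝒰 : Filter ℕ) atTop) (c : ℕ) :
    Y124.LP σ H (𝒰 : Filter ℕ) (fun n => {x : k | mulHeight₁ x ≤ H n ^ c}) := by
  intro J _ _
  refine ⟨c * Fintype.card J + 1, fun D => ?_⟩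
  filter_upwards [hH.eventually_ge_atTop 1,
    hH.eventually_ge_atTop (((Fintype.card (Equiv.Perm (J → Fin (D + 1))) : ℕ) : ℝ) ^ totalWeight k)] with n hn hn' x hx hdet
  rw [hτ]
  refine (one_le_ht_mul τ _ hdet).trans ?_
  gcongr
  refine (ht_det_le D x).trans ?_
  have h1 : ∏ p : (J → Fin (D + 1)) × J, mulHeight₁ (x p.1 p.2) ^ D ≤
      H n ^ (c * Fintype.card J * ((D + 1) * (D + 1) ^ Fintype.card J)) := by
    have h2 : ∏ p : (J → Fin (D + 1)) × J, mulHeight₁ (x p.1 p.2) ^ D ≤
        ∏ p : (J → Fin (D + 1)) × J, H n ^ (c * (D + 1)) := by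
      refine Finset.prod_le_prod (fun p _ => pow_nonneg (mulHeight₁_nonneg _) _) fun p _ => ?_
      calc mulHeight₁ (x p.1 p.2) ^ D ≤ (H n ^ c) ^ D := pow_le_pow_left₀ (mulHeight₁_nonneg _) (hx p.1 p.2) D
        _ = H n ^ (c * D) := by rw [pow_mul]
        _ ≤ H n ^ (c * (D + 1)) := pow_le_pow_right₀ hn (Nat.mul_le_mul_left _ (by omega))
    refine h2.trans (le_of_eq ?_)
    rw [Finset.prod_const, Finset.card_univ, ← pow_mul]
    congr 1
    simp only [Fintype.card_prod, Fintype.card_fun, Fintype.card_fin]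
    ring
  have h3 : H n ≤ H n ^ ((D + 1) * (D + 1) ^ Fintype.card J) :=
    le_self_pow₀ hn (by positivity)
  calc _ ≤ H n ^ ((D + 1) * (D + 1) ^ Fintype.card J) *
        H n ^ (c * Fintype.card J * ((D + 1) * (D + 1) ^ Fintype.card J)) :=
        mul_le_mul (hn'.trans h3) h1 (Finset.prod_nonneg fun p _ => pow_nonneg (mulHeight₁_nonneg _) _) (by positivity)
    _ = H n ^ ((c * Fintype.card J + 1) * ((D + 1) * (D + 1) ^ Fintype.card J)) := by
        rw [← pow_add]
        congr 1
        ring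

end nf

end Pool.Agent.Y771.KF
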