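import Pool.Agent.Y771.KF.MSP

/-!
# Nomes in a number field
-/

set_option autoImplicit false

open Filter Topology Height Height.AdmissibleAbsValues MvPolynomial Pool.Agent.Y124 Pool.Agent.TH21.MS

namespace Pool.Agent.Y771.KF

/-- the point `log x / (2πi)` -/
noncomputable def zC (x : ℂ) : ℂ := Complex.log x / (2 * (Real.pi : ℂ) * Complex.I)

/-- the four numbers -/
noncomputable def fourC (x : ℂ) : Fin 4 → ℂ :=
  ![Complex.log x, jj (zC x), deriv jj (zC x) / (2 * (Real.pi : ℂ) * Complex.I),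
    deriv (deriv jj) (zC x) / (2 * (Real.pi : ℂ) * Complex.I) ^ 2]

theorem zC_im (x : ℂ) (hx : x ∈ Complex.slitPlane) (hx1 : ‖x‖ < 1) : 0 < (zC x).im := by
  have hx0 : x ≠ 0 := Complex.slitPlane_ne_zero hx
  have h1 : (zC x).im = -(Real.log ‖x‖) / (2 * Real.pi) := by
    have hpi : (Real.pi : ℂ) ≠ 0 := by exact_mod_cast Real.pi_ne_zero
    have h2 : zC x = -(Complex.I * Complex.log x) / ((2 * Real.pi : ℝ) : ℂ) := by
      unfold zC
      push_cast
      field_simp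
      rw [Complex.I_sq]
      ring
    rw [h2, Complex.div_ofReal_im]
    simp [Complex.mul_im, Complex.log_re]
  rw [h1]
  have h3 : Real.log ‖x‖ < 0 := Real.log_neg (norm_pos_iff.2 hx0) hx1
  have := Real.pi_pos
  apply div_pos (by linarith) (by positivity)

/-- the slit disc -/
def slitDisc : Set ℂ := Complex.slitPlane ∩ Metric.ball 0 1

theorem preconn_slit : IsPreconnected slitDisc := by
  have h1 : StarConvex ℝ ((1 / 2 : ℝ) : ℂ) slitDisc := by
    refine StarConvex.inter (Complex.starConvex_ofReal_slitPlane (by norm_num)) ?_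
    refine (convex_ball (0 : ℂ) 1).starConvex ?_
    rw [mem_ball_zero_iff, Complex.norm_real]
    norm_num
  have h2 : ((1 / 2 : ℝ) : ℂ) ∈ slitDisc := by
    constructor
    · rw [Complex.mem_slitPlane_iff]
      left
      simp
    · rw [mem_ball_zero_iff, Complex.norm_real]
      norm_num
  exact (h1.isPathConnected h2).isConnected.isPreconnected

theorem fourC_an (i : Fin 4) : AnalyticOnNhd ℂ (fun x => fourC x i) slitDisc := by
  intro x hx
  have hx1 : ‖x‖ < 1 := mem_ball_zero_iff.1 hx.2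
  have hlog : AnalyticAt ℂ Complex.log x := analyticAt_clog hx.1
  have hz : AnalyticAt ℂ zC x := by
    unfold zC
    exact hlog.div analyticAt_const (by simp [Real.pi_ne_zero, Complex.I_ne_zero])
  have hj := jj_an (zC x) (zC_im x hx.1 hx1)
  have hne : (2 * (Real.pi : ℂ) * Complex.I) ≠ 0 := by simp [Real.pi_ne_zero, Complex.I_ne_zero]
  fin_cases i
  · exact hlog
  · exact AnalyticAt.fun_comp (g := jj) (f := zC) hj hz
  · exact (AnalyticAt.fun_comp (g := deriv jj) (f := zC) hj.deriv hz).div analyticAt_const hne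
  · exact (AnalyticAt.fun_comp (g := deriv (deriv jj)) (f := zC) hj.deriv.deriv hz).div analyticAt_const
      (pow_ne_zero 2 hne)

theorem fourC_ind : AIndepS (fun (i : Fin 4) (x : ℂ) => fourC x i) slitDisc := by
  have h : AIndep fJ (1 / 4) (1 / 2) := aindep_of_rindep _ _ _ fun d => mahler d _ _ (by norm_num) (by norm_num) (by norm_num)
  refine aindepS_of_real _ _ _ h _ _ 1 one_ne_zero (fun _ => 1) (fun _ => one_ne_zero) ?_ ?_
  · intro t ht
    have h0 : (0 : ℝ) < t := by linarith [ht.1]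
    rw [one_mul]
    constructor
    · rw [Complex.mem_slitPlane_iff]
      left
      simpa using h0
    · rw [mem_ball_zero_iff, Complex.norm_real, Real.norm_eq_abs, abs_of_pos h0]
      linarith [ht.2]
  · intro i t ht
    have h0 : (0 : ℝ) < t := by linarith [ht.1]
    rw [one_mul, one_mul, ← four_eq t ⟨h0, by linarith [ht.2]⟩]
    have h1 : Complex.log (t : ℂ) = ((Real.log t : ℝ) : ℂ) := (Complex.ofReal_log h0.le).symm
    simp only [fourC, four, zC, zx, h1]

variable {k : Type} [Field k] [NumberField k]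

/-- the `4 n + 1` numbers -/
noncomputable def numN {n : ℕ} (σ : k →+* ℂ) (x : Fin n → k) (i : Option (Fin n × Fin 4)) : ℂ :=
  i.elim (Real.pi : ℂ) fun q => fourC (σ (x q.1)) q.2

/-- the exceptional tuples -/
def ExcNK (σ : k →+* ℂ) (n d : ℕ) (K : Set ℂ) (A B T : ℝ) : Set (Fin n → k) :=
  {x | (∀ l, σ (x l) ∈ K ∧ mulHeight₁ (x l) ≤ T) ∧
    ∃ P : MvPolynomial (Option (Fin n × Fin 4)) k, P ≠ 0 ∧ (∀ i, P.degreeOf i ≤ d) ∧
      (∀ e, mulHeight₁ (P.coeff e) ≤ T ^ A) ∧ ‖eval₂ σ (numN σ x) P‖ ≤ T ^ (-B)}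

theorem nomemainK (σ : k →+* ℂ) (n d : ℕ) (hn : 1 ≤ n) (K : Set ℂ) (hK : IsCompact K)
    (hKS : ∀ x ∈ K, x ∈ Complex.slitPlane ∧ ‖x‖ < 1) (A ε : ℝ) (hε : 0 < ε) :
    ∃ (D : ℕ) (B C : ℝ), ∀ T : ℝ, 1 ≤ T →
      (∃ Φ : Finset (MvPolynomial (Fin n) k), (Φ.card : ℝ) ≤ C * T ^ ε ∧ (∀ Q ∈ Φ, Q ≠ 0 ∧ Q.totalDegree ≤ D) ∧
        ∀ t ∈ ExcNK σ n d K A B T, ∃ Q ∈ Φ, eval t Q = 0) ∧ (ExcNK σ n d K A B T).Finite ∧
      ((ExcNK σ n d K A B T).ncard : ℝ) ≤ C * T ^ ε * ({x : k | mulHeight₁ x ≤ T}.ncard : ℝ) ^ (n - 1) := by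
  classical
  have hnn : Nonempty (Fin n) := ⟨⟨0, hn⟩⟩
  have hKS' : K ⊆ slitDisc := fun x hx => ⟨(hKS x hx).1, mem_ball_zero_iff.2 (hKS x hx).2⟩
  obtain ⟨D, B, C, hC, h⟩ := stdK σ σ (fun _ => rfl) (fun _ : Fin n => fun (i : Fin 4) (x : ℂ) => fourC x i)
    (fun _ : Unit => Real.pi) (fun _ => slitDisc) (fun _ => K) (fun _ => preconn_slit) (fun _ => hKS') (fun _ => hK)
    (fun _ => fourC_an) (fun _ => fourC_ind) goodXi_pi d A ε hε
  have hsub : ∀ T, ExcNK σ n d K A B T ⊆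
      ExcK σ (fun _ : Fin n => fun (i : Fin 4) (x : ℂ) => fourC x i) (fun _ : Unit => Real.pi) (fun _ => K) d A B T := by
    rintro T t ⟨ht, P, hP0, hPd, hPc, hPs⟩
    refine ExcK_of_rename (Equiv.optionEquivSumPUnit (Fin n × Fin 4)) σ _ _ _ d A B T t ht (numN σ t) ?_ P hP0
      hPd hPc hPs
    intro w
    cases w with
    | none => simp [numN]
    | some w => simp [numN]
  obtain ⟨C', hC'⟩ := finish hn ε D C hC (fun T => ExcNK σ n d K A B T) (fun T _ t ht j => (ht.1 j).2)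
    (fun T hT => (h T hT).mono le_rfl le_rfl (hsub T))
  exact ⟨D, B, C', hC'⟩

end Pool.Agent.Y771.KF
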