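import Pool.Agent.Y771.KF.MSP
import Pool.Agent.TH21.MS.Comp

/-!
# Real number fields and powers of `i`
-/

set_option autoImplicit false

open Filter Topology Height Height.AdmissibleAbsValues MvPolynomial Pool.Agent.Y124 Pool.Agent.TH21.MS

namespace Pool.Agent.Y771.KF

variable {k : Type} [Field k] [NumberField k] {κ : Type} [Fintype κ] [DecidableEq κ]

/-- the numbers `π` and `i ^ (s_y) u_y (x_j)` -/
noncomputable def numIK {n : ℕ} (σ : k →+* ℝ) (u : κ → ℝ → ℝ) (s : κ → ℕ) (x : Fin n → k) (i : Option (Fin n × κ)) : ℂ :=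
  i.elim (Real.pi : ℂ) fun q => Complex.I ^ s q.2 * ((u q.2 (σ (x q.1)) : ℝ) : ℂ)

/-- the exceptional tuples -/
def ExcIK (σ : k →+* ℝ) (n d : ℕ) (u : κ → ℝ → ℝ) (s : κ → ℕ) (a b A B T : ℝ) : Set (Fin n → k) :=
  {x | (∀ j, σ (x j) ∈ Set.Icc a b ∧ mulHeight₁ (x j) ≤ T) ∧
    ∃ P : MvPolynomial (Option (Fin n × κ)) k, P ≠ 0 ∧ (∀ i, P.degreeOf i ≤ d) ∧
      (∀ v, mulHeight₁ (P.coeff v) ≤ T ^ A) ∧ ‖eval₂ (Complex.ofRealHom.comp σ) (numIK σ u s x) P‖ ≤ T ^ (-B)}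

/-- the total power of `i` -/
def wt {n : ℕ} (s : κ → ℕ) (e : Option (Fin n × κ) →₀ ℕ) : ℕ := ∑ q : Fin n × κ, s q.2 * e (some q)

/-- the real values -/
noncomputable def valR {n : ℕ} (σ : k →+* ℝ) (u : κ → ℝ → ℝ) (x : Fin n → k) (i : Option (Fin n × κ)) : ℝ :=
  i.elim Real.pi fun q => u q.2 (σ (x q.1))

theorem value_eqK {n : ℕ} (σ : k →+* ℝ) (u : κ → ℝ → ℝ) (s : κ → ℕ) (x : Fin n → k)
    (P : MvPolynomial (Option (Fin n × κ)) k) :
    eval₂ (Complex.ofRealHom.comp σ) (numIK σ u s x) P = ∑ e ∈ P.support,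
      ((σ (P.coeff e) : ℝ) : ℂ) * (Complex.I ^ wt s e * (((∏ o, valR σ u x o ^ e o : ℝ)) : ℂ)) := by
  rw [eval₂_eq']
  refine Finset.sum_congr rfl fun e _ => ?_
  congr 1
  rw [Fintype.prod_option, Fintype.prod_option]
  have h1 : ∀ q : Fin n × κ, numIK σ u s x (some q) ^ e (some q) =
      Complex.I ^ (s q.2 * e (some q)) * (((valR σ u x (some q)) ^ e (some q) : ℝ) : ℂ) := by
    intro q
    simp only [numIK, valR, Option.elim_some]
    rw [mul_pow, ← pow_mul]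
    push_cast
    rfl
  simp only [h1, Finset.prod_mul_distrib, Finset.prod_pow_eq_pow_sum, wt]
  have h2 : numIK σ u s x none = (Real.pi : ℂ) := rfl
  have h3 : valR σ u x none = Real.pi := rfl
  rw [h2, h3]
  push_cast
  ring

/-- the polynomial with twisted coefficients -/
noncomputable def twist {n : ℕ} (s : κ → ℕ) (g : ℕ → ℤ) (P : MvPolynomial (Option (Fin n × κ)) k) :
    MvPolynomial (Option (Fin n × κ)) k :=
  ∑ e ∈ P.support, monomial e (P.coeff e * ((g (wt s e) : ℤ) : k))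

theorem twist_coeff {n : ℕ} (s : κ → ℕ) (g : ℕ → ℤ) (P : MvPolynomial (Option (Fin n × κ)) k)
    (e : Option (Fin n × κ) →₀ ℕ) : (twist s g P).coeff e = P.coeff e * ((g (wt s e) : ℤ) : k) := by
  unfold twist
  rw [coeff_sum]
  simp only [coeff_monomial]
  rw [Finset.sum_ite_eq' P.support e]
  by_cases he : e ∈ P.support
  · rw [if_pos he]
  · rw [if_neg he, notMem_support_iff.1 he, zero_mul]

theorem twist_deg {n d : ℕ} (s : κ → ℕ) (g : ℕ → ℤ) (P : MvPolynomial (Option (Fin n × κ)) k)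
    (hP : ∀ i, P.degreeOf i ≤ d) (i) : (twist s g P).degreeOf i ≤ d := by
  rw [degreeOf_le_iff]
  intro e he
  have h1 : P.coeff e ≠ 0 := by
    intro h0
    apply mem_support_iff.1 he
    rw [twist_coeff, h0, zero_mul]
  exact (monomial_le_degreeOf i (mem_support_iff.2 h1)).trans (hP i)

theorem twist_ht {n : ℕ} (s : κ → ℕ) (g : ℕ → ℤ) (hg : ∀ m, |((g m : ℤ) : ℝ)| ≤ 1)
    (P : MvPolynomial (Option (Fin n × κ)) k) (M : ℝ) (h : ∀ e, mulHeight₁ (P.coeff e) ≤ M) (e) :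
    mulHeight₁ ((twist s g P).coeff e) ≤ M := by
  rw [twist_coeff]
  refine (mulHeight₁_mul_le _ _).trans ?_
  have h1 : mulHeight₁ (((g (wt s e) : ℤ)) : k) ≤ 1 := by
    refine (ht_int_le _).trans ?_
    rw [max_eq_right (hg _), one_pow]
  calc _ ≤ mulHeight₁ (P.coeff e) * 1 := by
        gcongr
    _ ≤ M := by rw [mul_one]; exact h e

theorem twist_val {n : ℕ} (σ : k →+* ℝ) (s : κ → ℕ) (g : ℕ → ℤ) (P : MvPolynomial (Option (Fin n × κ)) k)
    (v : Option (Fin n × κ) → ℝ) :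
    eval₂ σ v (twist s g P) = ∑ e ∈ P.support, σ (P.coeff e) * ((g (wt s e) : ℤ) : ℝ) * ∏ o, v o ^ e o := by
  unfold twist
  rw [← coe_eval₂Hom, map_sum]
  refine Finset.sum_congr rfl fun e _ => ?_
  rw [coe_eval₂Hom, eval₂_monomial, map_mul, map_intCast, Finsupp.prod_fintype _ _ (fun _ => pow_zero _)]

theorem ExcIK_sub (σ : k →+* ℝ) (n d : ℕ) (u : κ → ℝ → ℝ) (s : κ → ℕ) (a b A B T : ℝ) :
    ExcIK σ n d u s a b A B T ⊆
      ExcK σ (fun _ : Fin n => u) (fun _ : Unit => Real.pi) (fun _ => Set.Icc a b) d A B T := by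
  classical
  rintro x ⟨hx, P, hP0, hPd, hPc, hPs⟩
  rw [value_eqK] at hPs
  obtain ⟨e0, he0⟩ := support_nonempty.2 hP0
  have key : ∀ g : ℕ → ℤ, (∀ m, |((g m : ℤ) : ℝ)| ≤ 1) → g (wt s e0) ≠ 0 →
      |∑ e ∈ P.support, σ (P.coeff e) * ((g (wt s e) : ℤ) : ℝ) * ∏ o, valR σ u x o ^ e o| ≤ T ^ (-B) →
      x ∈ ExcK σ (fun _ : Fin n => u) (fun _ : Unit => Real.pi) (fun _ => Set.Icc a b) d A B T := by
    intro g hg hg0 hv
    refine ExcK_of_rename (Equiv.optionEquivSumPUnit (Fin n × κ)) σ _ _ _ d A B T x hx (valR σ u x) ?_ (twist s g P) ?_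
      (twist_deg s g P hPd) (twist_ht s g hg P _ hPc) ?_
    · intro w
      cases w with
      | none => simp [valR]
      | some w => simp [valR]
    · intro h0
      have h1 := congrArg (coeff e0) h0
      rw [twist_coeff, coeff_zero] at h1
      rcases mul_eq_zero.1 h1 with h2 | h2
      · exact mem_support_iff.1 he0 h2
      · exact hg0 (by exact_mod_cast h2)
    · rw [twist_val, Real.norm_eq_abs]
      exact hv
  rcases reI_or (wt s e0) with h1 | h1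
  · refine key reI (fun m => abs_reI m) h1 ?_
    refine le_trans (le_of_eq ?_) ((Complex.abs_re_le_norm _).trans hPs)
    congr 1
    rw [Complex.re_sum]
    refine Finset.sum_congr rfl fun e _ => ?_
    generalize (∏ o, valR σ u x o ^ e o) = m
    rw [I_pow]
    simp
    ring
  · refine key imI (fun m => abs_imI m) h1 ?_
    refine le_trans (le_of_eq ?_) ((Complex.abs_im_le_norm _).trans hPs)
    congr 1
    rw [Complex.im_sum]
    refine Finset.sum_congr rfl fun e _ => ?_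
    generalize (∏ o, valR σ u x o ^ e o) = m
    rw [I_pow]
    simp
    ring

/-- The counting theorem for families of functions with lower bounds near infinity. -/
theorem count2K (σ : k →+* ℝ) (u : κ → ℝ → ℝ) (s : κ → ℕ) (h : ℝ → ℝ) (a0 : ℝ)
    (han : ∀ y, AnalyticOnNhd ℝ (u y) (Set.Ici a0)) (hLB : LB u h) (n d : ℕ) (hn : 1 ≤ n) (A a b : ℝ)
    (ha : a0 ≤ a) (hab : a < b) (ε : ℝ) (hε : 0 < ε) :
    ∃ (D : ℕ) (B C : ℝ), ∀ T : ℝ, 1 ≤ T →
      (∃ Φ : Finset (MvPolynomial (Fin n) k), (Φ.card : ℝ) ≤ C * T ^ ε ∧ (∀ Q ∈ Φ, Q ≠ 0 ∧ Q.totalDegree ≤ D) ∧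
        ∀ t ∈ ExcIK σ n d u s a b A B T, ∃ Q ∈ Φ, eval t Q = 0) ∧ (ExcIK σ n d u s a b A B T).Finite ∧
      ((ExcIK σ n d u s a b A B T).ncard : ℝ) ≤ C * T ^ ε * ({x : k | mulHeight₁ x ≤ T}.ncard : ℝ) ^ (n - 1) := by
  classical
  have hnn : Nonempty (Fin n) := ⟨⟨0, hn⟩⟩
  have hIcc : Set.Icc a b ⊆ Set.Ici a0 := fun t ht => ha.trans ht.1
  have hA : AIndep u a b := aindep_of_rindep _ _ _ fun d => rindep_of_LB u h a0 han hLB d a b ha hab
  obtain ⟨D, B, C, hC, hcov⟩ := stdK (𝕜 := ℝ) σ (Complex.ofRealHom.comp σ) (fun a => by simp)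
    (fun _ : Fin n => u) (fun _ : Unit => Real.pi)
    (fun _ => Set.Icc a b) (fun _ => Set.Icc a b) (fun _ => isPreconnected_Icc) (fun _ => le_rfl)
    (fun _ => isCompact_Icc) (fun _ y => (han y).mono hIcc) (fun _ => hA) goodXi_pi d A ε hε
  obtain ⟨C', hC'⟩ := finish hn ε D C hC (fun T => ExcIK σ n d u s a b A B T) (fun T _ t ht j => (ht.1 j).2)
    (fun T hT => (hcov T hT).mono le_rfl le_rfl (ExcIK_sub σ n d u s a b A B T))
  exact ⟨D, B, C', hC'⟩

end Pool.Agent.Y771.KF
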