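import Pool.Agent.Y771.KF.Fld
import Pool.Agent.Y124.Std

/-!
# Approximate relations at points of a number field: the exceptional points lie on few hypersurfaces
-/

set_option autoImplicit false

open Filter Topology Height Height.AdmissibleAbsValues MvPolynomial Pool.Agent.Y124

namespace Pool.Agent.Y771.KF

variable {𝕜 : Type} [RCLike 𝕜]

/-- algebraic independence over the field of rational functions of `t` -/
def AIndepS {Y₀ : Type} (f : Y₀ → 𝕜 → 𝕜) (S : Set 𝕜) : Prop :=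
  ∀ P : MvPolynomial (Option Y₀) 𝕜, (∀ t ∈ S, eval (fun o => o.elim t fun y => f y t) P = 0) → P = 0

theorem taylor_indep_S {Y₀ : Type} [Fintype Y₀] (f : Y₀ → 𝕜 → 𝕜) (S : Set 𝕜) (hS : IsPreconnected S)
    (han : ∀ y, AnalyticOnNhd 𝕜 (f y) S) (hind : AIndepS f S) (t0 : 𝕜) (ht0 : t0 ∈ S) :
    LinearIndependent 𝕜 (fun (ab : ℕ × (Y₀ → ℕ)) η => tc (fun u => u ^ ab.1 * ∏ y, f y u ^ ab.2 y) t0 η) := by
  classical
  have hana : ∀ (i : ℕ × (Y₀ → ℕ)) (t : 𝕜), t ∈ S →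
      AnalyticAt 𝕜 (fun u => u ^ i.1 * ∏ y, f y u ^ i.2 y) t := fun i t ht =>
    (analyticAt_id.pow _).mul (Finset.analyticAt_fun_prod _ fun y _ => (han y t ht).pow _)
  apply tc_indep _ _ (fun i => hana i t0 ht0)
  intro s c h
  have h1 : AnalyticOnNhd 𝕜 (fun t => ∑ i ∈ s, c i * (t ^ i.1 * ∏ y, f y t ^ i.2 y)) S :=
    fun t ht => Finset.analyticAt_fun_sum _ fun i _ => analyticAt_const.mul (hana i t ht)
  have h2 := h1.eqOn_zero_of_preconnected_of_eventuallyEq_zero hS ht0 h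
  let ex : ℕ × (Y₀ → ℕ) → (Option Y₀ →₀ ℕ) := fun i => Finsupp.equivFunOnFinite.symm fun o => o.elim i.1 i.2
  have hex : Function.Injective ex := by
    intro i j hij
    have h3 := Finsupp.equivFunOnFinite.symm.injective hij
    refine Prod.ext (congrFun h3 none) (funext fun y => congrFun h3 (some y))
  have h3 := hind (∑ i ∈ s, monomial (ex i) (c i)) (by
    intro t ht
    rw [map_sum]
    refine Eq.trans (Finset.sum_congr rfl fun i _ => ?_) (h2 ht)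
    rw [eval_monomial, Finsupp.prod_fintype _ _ (fun _ => pow_zero _), Fintype.prod_option]
    simp [ex])
  intro i hi
  have h4 := congrArg (coeff (ex i)) h3
  rw [coeff_sum, coeff_zero] at h4
  simp only [coeff_monomial] at h4
  have h5 : ∀ j, (if ex j = ex i then c j else 0) = if j = i then c j else 0 := by
    intro j
    by_cases hj : j = i
    · rw [if_pos hj, if_pos (by rw [hj])]
    · rw [if_neg hj, if_neg (fun hh => hj (hex hh))]
  simp only [h5] at h4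
  rw [Finset.sum_ite_eq' s i, if_pos hi] at h4
  exact h4

theorem exists_sV' {R : Type*} [CommSemiring R] {V : Type} [Fintype V] {d : ℕ} (P : MvPolynomial V R)
    (hP : ∀ i, P.degreeOf i ≤ d) (s : V →₀ ℕ) (hs : s ∈ P.support) : ∃ z : V → Fin (d + 1), sV z = s := by
  have hle : ∀ x, s x < d + 1 := fun x =>
    Nat.lt_succ_of_le ((monomial_le_degreeOf x hs).trans (hP x))
  refine ⟨fun x => ⟨s x, hle x⟩, ?_⟩
  ext x
  rfl

variable {k : Type} [Field k] [NumberField k]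

theorem eval₂_eq_sum {V : Type} [Fintype V] [DecidableEq V] {d : ℕ} (σ : k →+* 𝕜) (v : V → 𝕜) (P : MvPolynomial V k)
    (hP : ∀ i, P.degreeOf i ≤ d) :
    eval₂ σ v P = ∑ z : V → Fin (d + 1), σ (P.coeff (sV z)) * ∏ i, v i ^ (z i : ℕ) := by
  classical
  rw [eval₂_eq']
  have h1 : ∀ z : V → Fin (d + 1), σ (P.coeff (sV z)) * ∏ i, v i ^ (z i : ℕ) =
      (fun s : V →₀ ℕ => σ (P.coeff s) * ∏ i, v i ^ s i) (sV z) := fun z => rfl
  rw [Finset.sum_congr rfl fun z _ => h1 z, ← Finset.sum_image (f := fun s : V →₀ ℕ =>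
    σ (P.coeff s) * ∏ i, v i ^ s i) (fun a _ b _ hab => sV_inj hab)]
  refine Finset.sum_subset_zero_on_sdiff ?_ ?_ ?_
  · intro s hs
    obtain ⟨z, hz⟩ := exists_sV' P hP s hs
    exact Finset.mem_image.2 ⟨z, Finset.mem_univ _, hz⟩
  · intro s hs
    rw [Finset.mem_sdiff, notMem_support_iff] at hs
    rw [hs.2]
    simp
  · intro s _
    rfl

/-- the points with an approximate relation -/
def ExcK {X Y₀ Yc : Type} (σ : k →+* 𝕜) (f : X → Y₀ → 𝕜 → 𝕜) (ξ : Yc → ℝ) (Kc : X → Set 𝕜) (d : ℕ)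
    (A B T : ℝ) : Set (X → k) :=
  {t | (∀ x, σ (t x) ∈ Kc x ∧ mulHeight₁ (t x) ≤ T) ∧
    ∃ P : MvPolynomial ((X × Y₀) ⊕ Yc) k, P ≠ 0 ∧ (∀ i, P.degreeOf i ≤ d) ∧
      (∀ s, mulHeight₁ (P.coeff s) ≤ T ^ A) ∧
      ‖eval₂ σ (Sum.elim (fun c : X × Y₀ => f c.1 c.2 (σ (t c.1))) fun c => ((ξ c : ℝ) : 𝕜)) P‖ ≤ T ^ (-B)}

/-- the elements of bounded height -/
noncomputable def FT (k : Type) [Field k] [NumberField k] (R : ℝ) : Finset k :=
  (NumberField.finite_setOfPred_mulHeight₁_le (K := k) R).toFinset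

theorem mem_FT {R : ℝ} {x : k} : x ∈ FT k R ↔ mulHeight₁ x ≤ R := by
  simp [FT]

theorem ExcK_sub {X Y₀ Yc : Type} [Fintype X] [DecidableEq X] (σ : k →+* 𝕜) (f : X → Y₀ → 𝕜 → 𝕜) (ξ : Yc → ℝ)
    (Kc : X → Set 𝕜) (d : ℕ) (A B T R : ℝ) (hTR : T ≤ R) :
    ExcK σ f ξ Kc d A B T ⊆ (Fintype.piFinset fun _ : X => FT k R : Finset (X → k)) := by
  intro t ht
  rw [Finset.mem_coe, Fintype.mem_piFinset]
  exact fun x => mem_FT.2 ((ht.1 x).2.trans hTR)

theorem cov_finset' {X : Type} [Nonempty X] (F : Finset (X → k)) (S : Set (X → k)) (hS : S ⊆ F) :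
    Cov 1 F.card S := by
  classical
  obtain ⟨x0⟩ := (inferInstance : Nonempty X)
  refine ⟨F.image fun t => MvPolynomial.X x0 - C (t x0), Finset.card_image_le, ?_, ?_⟩
  · intro P hP
    obtain ⟨t, -, rfl⟩ := Finset.mem_image.1 hP
    refine ⟨?_, ?_⟩
    · intro h
      have h1 := congrArg (eval (fun _ => t x0 + 1)) h
      simp at h1
    · refine (totalDegree_sub_C_le _ _).trans ?_
      rw [totalDegree_X]
  · intro t ht
    refine ⟨_, Finset.mem_image_of_mem _ (hS ht), ?_⟩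
    simp

theorem stdK {X Y₀ Yc : Type} [Fintype X] [Nonempty X] [Fintype Y₀] [Fintype Yc] (σ : k →+* 𝕜) (τ : k →+* ℂ)
    (hτ : ∀ a, ‖σ a‖ = ‖τ a‖) (f : X → Y₀ → 𝕜 → 𝕜) (ξ : Yc → ℝ) (S Kc : X → Set 𝕜)
    (hS : ∀ x, IsPreconnected (S x)) (hKS : ∀ x, Kc x ⊆ S x) (hKc : ∀ x, IsCompact (Kc x))
    (han : ∀ x y, AnalyticOnNhd 𝕜 (f x y) (S x))
    (hind : ∀ x, AIndepS (f x) (S x)) (hξ : GoodXi ξ) (d : ℕ) (A ε : ℝ) (hε : 0 < ε) :
    ∃ (D : ℕ) (B C : ℝ), 0 ≤ C ∧ ∀ T : ℝ, 1 ≤ T → Cov D ⌊C * T ^ ε⌋₊ (ExcK σ f ξ Kc d A B T) := by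
  classical
  by_contra hcon
  push Not at hcon
  have h1 : ∀ N : ℕ, ∃ T : ℝ, 1 ≤ T ∧ ¬ Cov N ⌊(N : ℝ) * T ^ ε⌋₊ (ExcK σ f ξ Kc d A N T) := fun N =>
    hcon N N N (Nat.cast_nonneg N)
  choose H hH1 hcov using h1
  -- the heights tend to infinity
  have hHt : Tendsto H atTop atTop := by
    rw [tendsto_atTop]
    intro R
    set F : Finset (X → k) := Fintype.piFinset fun _ : X => FT k R with hF
    filter_upwards [eventually_ge_atTop (max 1 F.card)] with N hN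
    by_contra hlt
    rw [not_le] at hlt
    apply hcov N
    refine (cov_finset' F _ (ExcK_sub σ f ξ Kc d A N (H N) R hlt.le)).mono ((le_max_left _ _).trans hN) ?_
      (Set.Subset.refl _)
    apply Nat.le_floor
    have h2 : ((F.card : ℕ) : ℝ) ≤ N := by exact_mod_cast (le_max_right _ _).trans hN
    have h3 : 1 ≤ H N ^ ε := Real.one_le_rpow (hH1 N) hε.le
    have h4 : (0 : ℝ) ≤ N := Nat.cast_nonneg N
    nlinarith
  let 𝒰 : Ultrafilter ℕ := hyperfilter ℕ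
  have h𝒰 : (𝒰 : Filter ℕ) ≤ atTop := by
    rw [← Nat.cofinite_eq_atTop]
    exact hyperfilter_le_cofinite
  have hH : Tendsto H (𝒰 : Filter ℕ) atTop := hHt.mono_left h𝒰
  -- the coefficients
  let V := (X × Y₀) ⊕ Yc
  let Z := V → Fin (d + 1)
  let val : (X → k) → V → 𝕜 := fun t => Sum.elim (fun c : X × Y₀ => f c.1 c.2 (σ (t c.1))) fun c => ((ξ c : ℝ) : 𝕜)
  have hfin : ∀ N : ℕ, (ExcK σ f ξ Kc d A N (H N)).Finite := fun N =>
    (Finset.finite_toSet _).subset (ExcK_sub σ f ξ Kc d A N (H N) (H N) le_rfl)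
  have hP : ∀ (N : ℕ) (t : X → k), ∃ P : MvPolynomial V k, t ∈ ExcK σ f ξ Kc d A N (H N) →
      (P ≠ 0 ∧ (∀ i, P.degreeOf i ≤ d) ∧
      (∀ s, mulHeight₁ (P.coeff s) ≤ H N ^ A) ∧
      ‖eval₂ σ (val t) P‖ ≤ H N ^ (-(N : ℝ))) := by
    intro N t
    by_cases ht : t ∈ ExcK σ f ξ Kc d A N (H N)
    · obtain ⟨P, hP⟩ := ht.2
      exact ⟨P, fun _ => hP⟩
    · exact ⟨0, fun h => absurd h ht⟩
  choose Pc hPc using hP
  have hz : ∀ (N : ℕ) (t : X → k), ∃ z0 : Z, t ∈ ExcK σ f ξ Kc d A N (H N) →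
      ((Pc N t).coeff (sV z0) ≠ 0 ∧ ∀ z : Z, ‖σ ((Pc N t).coeff (sV z))‖ ≤ ‖σ ((Pc N t).coeff (sV z0))‖) := by
    intro N t
    obtain ⟨z0, -, hz0⟩ := Finset.exists_max_image (Finset.univ : Finset Z)
      (fun z => ‖σ ((Pc N t).coeff (sV z))‖) Finset.univ_nonempty
    refine ⟨z0, fun ht => ⟨?_, fun z => hz0 z (Finset.mem_univ _)⟩⟩
    intro h0
    obtain ⟨hP0, hPd, -, -⟩ := hPc N t ht
    obtain ⟨s, hs⟩ := support_nonempty.2 hP0
    obtain ⟨z, hz⟩ := exists_sV' (Pc N t) hPd s hs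
    have h2 := hz0 z (Finset.mem_univ _)
    rw [h0, hz] at h2
    simp only [map_zero, norm_zero] at h2
    have h3 : (Pc N t).coeff s ≠ 0 := mem_support_iff.1 hs
    have h4 : 0 < ‖σ ((Pc N t).coeff s)‖ := norm_pos_iff.2 ((map_ne_zero σ).2 h3)
    linarith
  choose z0 hz0 using hz
  let q : ℕ → (X → k) → (X ⊕ Z → k) := fun N t => Sum.elim t fun z =>
    (Pc N t).coeff (sV z) / (Pc N t).coeff (sV (z0 N t))
  let A1 : ℕ → Finset (X ⊕ Z → k) := fun N => (hfin N).toFinset.image (q N)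
  let Pz : ℕ → Z → Finset (X ⊕ Z → k) := fun N z => ((hfin N).toFinset.filter fun t => z0 N t = z).image (q N)
  have hA1 : LargeD 𝒰 H ε A1 := by
    have h2 : ∀ᶠ N in (𝒰 : Filter ℕ), 1 ≤ N := h𝒰 (eventually_ge_atTop 1)
    refine h2.mono ?_
    intro N hN hc
    apply hcov N
    refine hc.mono le_rfl ?_ ?_
    · apply Nat.floor_le_floor
      have h3 : 0 ≤ H N ^ ε := by have := hH1 N; positivity
      have h4 : (1 : ℝ) ≤ N := by exact_mod_cast hN
      nlinarith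
    · intro t ht
      refine ⟨q N t, ?_, ?_⟩
      · simp only [A1, Finset.coe_image]
        exact Set.mem_image_of_mem _ (by simpa using ht)
      · funext i
        rfl
  obtain ⟨j, -, hj⟩ := large_pieces (𝒰 := 𝒰) hH hε hA1 (fun _ => (Finset.univ : Finset Z)) Pz (Fintype.card Z)
    (Eventually.of_forall fun n => by
      have h3 : 1 ≤ H n ^ (ε / 4) := Real.one_le_rpow (hH1 n) (by positivity)
      rw [Finset.card_univ]
      nlinarith [(Nat.cast_nonneg (Fintype.card Z) : (0 : ℝ) ≤ _)])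
    (Eventually.of_forall fun n q' hq' => by
      simp only [A1, Finset.mem_image] at hq'
      obtain ⟨t, ht, rfl⟩ := hq'
      refine ⟨z0 n t, Finset.mem_univ _, ?_⟩
      simp only [Pz, Finset.mem_image, Finset.mem_filter]
      exact ⟨t, ⟨ht, rfl⟩, rfl⟩)
  obtain ⟨zs, hzs⟩ := exists_eq_of_finite (𝒰 := 𝒰) j
  let A₀ : ℕ → Finset (X ⊕ Z → k) := fun N => Pz N zs
  have hA₀ : Large 𝒰 H A₀ := by
    refine ⟨ε / 4, by positivity, ?_⟩
    unfold LargeD at hj ⊢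
    filter_upwards [hj, hzs] with n h1 h2
    rw [h2] at h1
    exact h1
  have hmemA : ∀ N : ℕ, ∀ x ∈ A₀ N, ∃ t ∈ ExcK σ f ξ Kc d A N (H N), z0 N t = zs ∧ q N t = x := by
    intro N x hx
    simp only [A₀, Pz, Finset.mem_image, Finset.mem_filter, Set.Finite.mem_toFinset] at hx
    obtain ⟨t, ⟨ht, hz⟩, hq⟩ := hx
    exact ⟨t, ht, hz, hq⟩
  -- bounds
  have hbK : ∀ x, ∃ M : ℝ, ∀ y ∈ Kc x, ‖y‖ ≤ M := fun x => (hKc x).isBounded.exists_norm_le
  choose M0 hM0 using hbK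
  set Mb : ℝ := 1 + ∑ x, |M0 x| with hMb
  have hMx : ∀ x, M0 x ≤ Mb := by
    intro x
    have h2 : |M0 x| ≤ ∑ x, |M0 x| :=
      Finset.single_le_sum (f := fun x => |M0 x|) (fun _ _ => by positivity) (Finset.mem_univ x)
    have := le_abs_self (M0 x)
    linarith
  have hMb1 : 1 ≤ Mb := by
    have : 0 ≤ ∑ x, |M0 x| := Finset.sum_nonneg fun _ _ => by positivity
    linarith
  have habs : ∀ N : ℕ, ∀ t ∈ ExcK σ f ξ Kc d A N (H N), ∀ x, ‖σ (t x)‖ ≤ Mb := by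
    intro N t ht x
    exact (hM0 x _ (ht.1 x).1).trans (hMx x)
  have hzabs : ∀ N : ℕ, ∀ t ∈ ExcK σ f ξ Kc d A N (H N), ∀ z : Z, ‖σ (q N t (Sum.inr z))‖ ≤ 1 := by
    intro N t ht z
    simp only [q, Sum.elim_inr]
    rw [map_div₀, norm_div]
    have h2 : 0 < ‖σ ((Pc N t).coeff (sV (z0 N t)))‖ := norm_pos_iff.2 ((map_ne_zero σ).2 (hz0 N t ht).1)
    exact (div_le_one h2).2 ((hz0 N t ht).2 z)
  have hApow : ∀ N, H N ^ A ≤ H N ^ (⌈A⌉₊ + 1) := by
    intro N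
    rw [← Real.rpow_natCast (H N)]
    apply Real.rpow_le_rpow_of_exponent_le (hH1 N)
    push_cast
    have := Nat.le_ceil A
    linarith
  set cA : ℕ := 2 * (⌈A⌉₊ + 1) with hcA
  refine core (𝒰 := 𝒰) (H := H) (Y₀ := Y₀) (Yc := Yc) (X := X) (Z := Z) σ hH h𝒰 (KK k hH) (KK_mod σ τ hτ hH)
    (fun n => {x : k | mulHeight₁ x ≤ H n ^ cA}) (fun g hg => coe_mem_KK hH cA g hg) (LPK σ τ hτ hH cA) A₀ ?_ Mb
    (by linarith) ?_
    Kc hKc ?_ f (fun x y t ht => han x y t (hKS x ht))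
    (fun x t ht => taylor_indep_S (f x) (S x) (hS x) (han x) (hind x) t (hKS x ht)) (fun c => ((ξ c : ℝ) : 𝕜))
    (fun P hP => bigK σ τ hτ ξ hξ hH P hP)
    (∑ z : Z, monomial (sV z) (if z = zs then 1 else MvPolynomial.X (Sum.inr z))) (sV zs) ?_ ?_ hA₀
  · -- heights
    refine Eventually.of_forall fun N x hx i => ?_
    obtain ⟨t, ht, -, rfl⟩ := hmemA N x hx
    have hpow1 : H N ≤ H N ^ cA := le_self_pow₀ (hH1 N) (by omega)
    rcases i with i | z
    · exact ((ht.1 i).2).trans hpow1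
    · change mulHeight₁ ((Pc N t).coeff (sV z) / (Pc N t).coeff (sV (z0 N t))) ≤ _
      rw [div_eq_mul_inv]
      refine (mulHeight₁_mul_le _ _).trans ?_
      rw [mulHeight₁_inv, hcA, two_mul, pow_add]
      exact mul_le_mul (((hPc N t ht).2.2.1 _).trans (hApow N)) (((hPc N t ht).2.2.1 _).trans (hApow N))
        (mulHeight₁_nonneg _) (by have := hH1 N; positivity)
  · refine Eventually.of_forall fun N x hx i => ?_
    obtain ⟨t, ht, -, rfl⟩ := hmemA N x hx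
    rcases i with i | z
    · exact habs N t ht i
    · exact (hzabs N t ht z).trans hMb1
  · refine Eventually.of_forall fun N x hx i => ?_
    obtain ⟨t, ht, -, rfl⟩ := hmemA N x hx
    exact (ht.1 i).1
  · rw [coeff_sum]
    simp only [coeff_monomial]
    rw [Finset.sum_eq_single zs]
    · simp
    · intro z _ hz
      rw [if_neg (fun hh => hz (sV_inj hh))]
    · simp
  · intro qq hqq
    have hval : eval₂ ((gmap 𝒰 σ).comp
          (aeval (pt 𝒰 qq) : MvPolynomial (X ⊕ Z) (KK k hH) →ₐ[KK k hH] UL 𝒰 k).toRingHom)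
        (Sum.elim (fun c : X × Y₀ => ((fun n => f c.1 c.2 (σ (qq n (Sum.inl c.1))) : ℕ → 𝕜) :
          (𝒰 : Filter ℕ).Germ 𝕜)) (fun c => ((fun _ => ((ξ c : ℝ) : 𝕜) : ℕ → 𝕜) : (𝒰 : Filter ℕ).Germ 𝕜)))
        (∑ z : Z, monomial (sV z) (if z = zs then 1 else MvPolynomial.X (Sum.inr z))) =
        ((fun n => ∑ z : Z, σ (qq n (Sum.inr z)) * ∏ i,
          (val (fun x => qq n (Sum.inl x)) i) ^ (z i : ℕ) : ℕ → 𝕜) :
          (𝒰 : Filter ℕ).Germ 𝕜) := by
      rw [← coe_eval₂Hom, map_sum, coe_sum_germ]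
      refine Finset.sum_congr rfl fun z _ => ?_
      rw [coe_eval₂Hom, eval₂_monomial, coe_mul_germ]
      congr 1
      · by_cases hzz : z = zs
        · rw [if_pos hzz, map_one]
          change ((1 : ℕ → 𝕜) : (𝒰 : Filter ℕ).Germ 𝕜) = _
          rw [Germ.coe_eq]
          filter_upwards [hqq] with n hn
          obtain ⟨t, ht, hzt, hqt⟩ := hmemA n _ hn
          rw [← hqt, hzz]
          simp only [q, Sum.elim_inr, hzt, Pi.one_apply]
          have h2 := (hz0 n t ht).1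
          rw [hzt] at h2
          rw [div_self h2, map_one]
        · rw [if_neg hzz]
          have h3 : ((gmap 𝒰 σ).comp
            (aeval (pt 𝒰 qq) : MvPolynomial (X ⊕ Z) (KK k hH) →ₐ[KK k hH] UL 𝒰 k).toRingHom) (MvPolynomial.X (Sum.inr z)) =
            gmap 𝒰 σ (pt 𝒰 qq (Sum.inr z)) := by
            rw [RingHom.comp_apply]
            congr 1
            exact aeval_X _ _
          rw [h3]
          rfl
      · rw [coe_prod_germ, Finsupp.prod_fintype _ _ (fun _ => pow_zero _)]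
        refine Finset.prod_congr rfl fun i _ => ?_
        rw [coe_pow_germ, sV_apply]
        congr 1
        rcases i with c | c
        · rfl
        · rfl
    rw [hval, isTiny_coe]
    intro B
    filter_upwards [hqq, h𝒰 (eventually_ge_atTop (B + (⌈A⌉₊ + 1)))] with n hn hnB
    obtain ⟨t, ht, hzt, hqt⟩ := hmemA n _ hn
    obtain ⟨hP0, hPd, hPc', hPs⟩ := hPc n t ht
    rw [← hqt]
    have hc0 : (Pc n t).coeff (sV (z0 n t)) ≠ 0 := (hz0 n t ht).1
    have h2 : ∑ z : Z, σ (q n t (Sum.inr z)) * ∏ i, (val (fun x => q n t (Sum.inl x)) i) ^ (z i : ℕ) =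
        (eval₂ σ (val t) (Pc n t)) / σ ((Pc n t).coeff (sV (z0 n t))) := by
      rw [eval₂_eq_sum σ (val t) _ hPd, Finset.sum_div]
      refine Finset.sum_congr rfl fun z _ => ?_
      simp only [q, Sum.elim_inr, Sum.elim_inl]
      rw [map_div₀]
      ring
    rw [h2, norm_div]
    have h3 : 1 ≤ H n ^ (⌈A⌉₊ + 1) * ‖σ ((Pc n t).coeff (sV (z0 n t)))‖ := by
      rw [hτ]
      refine (one_le_ht_mul τ _ hc0).trans ?_
      have := (hPc' (sV (z0 n t))).trans (hApow n)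
      gcongr
    have hHn := hH1 n
    have hσ0 : 0 < ‖σ ((Pc n t).coeff (sV (z0 n t)))‖ := norm_pos_iff.2 ((map_ne_zero σ).2 hc0)
    rw [div_mul_eq_mul_div, div_le_one hσ0]
    have h5 : ‖eval₂ σ (val t) (Pc n t)‖ * H n ^ B * H n ^ (⌈A⌉₊ + 1) ≤ 1 := by
      calc ‖eval₂ σ (val t) (Pc n t)‖ * H n ^ B * H n ^ (⌈A⌉₊ + 1)
          = ‖eval₂ σ (val t) (Pc n t)‖ * H n ^ (B + (⌈A⌉₊ + 1)) := by rw [pow_add]; ring
        _ ≤ H n ^ (-(n : ℝ)) * H n ^ (B + (⌈A⌉₊ + 1)) := by gcongr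
        _ ≤ 1 := by
          rw [← Real.rpow_natCast (H n) (B + (⌈A⌉₊ + 1)), ← Real.rpow_add (by linarith)]
          apply Real.rpow_le_one_of_one_le_of_nonpos hHn
          have : ((B + (⌈A⌉₊ + 1) : ℕ) : ℝ) ≤ n := by exact_mod_cast hnB
          linarith
    have h6 : 0 < H n ^ (⌈A⌉₊ + 1) := by positivity
    rw [← mul_le_mul_iff_left₀ h6]
    calc _ ≤ 1 := h5
      _ ≤ H n ^ (⌈A⌉₊ + 1) * ‖σ ((Pc n t).coeff (sV (z0 n t)))‖ := h3
      _ = _ := mul_comm _ _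

end Pool.Agent.Y771.KF
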